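import Mathlib

/-! Constants and one-variable inequalities for the upper bound. -/

set_option autoImplicit false

namespace H921GH

theorem exists_root : ∃ s : ℝ, 0.3478 < s ∧ s < 0.34782 ∧ 4 * s ^ 3 + 4 * s ^ 2 + s = 1 := by
  have hcont : ContinuousOn (fun t : ℝ => 4 * t ^ 3 + 4 * t ^ 2 + t) (Set.Icc 0.3478 0.34782) := by
    fun_prop
  have h := intermediate_value_Ioo (by norm_num : (0.3478 : ℝ) ≤ 0.34782) hcont
  have h1 : (1 : ℝ) ∈ Set.Ioo (4 * (0.3478 : ℝ) ^ 3 + 4 * 0.3478 ^ 2 + 0.3478)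
      (4 * (0.34782 : ℝ) ^ 3 + 4 * 0.34782 ^ 2 + 0.34782) := by
    constructor <;> norm_num
  obtain ⟨t, ht, he⟩ := h h1
  exact ⟨t, ht.1, ht.2, he⟩

noncomputable def s : ℝ := exists_root.choose

theorem s_gt : 0.3478 < s := exists_root.choose_spec.1
theorem s_lt : s < 0.34782 := exists_root.choose_spec.2.1
theorem s_eq : 4 * s ^ 3 + 4 * s ^ 2 + s = 1 := exists_root.choose_spec.2.2
theorem s_pos : 0 < s := lt_trans (by norm_num) s_gt

theorem root_unique {t : ℝ} (ht : 0 < t) (h : 4 * t ^ 3 + 4 * t ^ 2 + t = 1) : t = s := by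
  rcases lt_trichotomy t s with h1 | h1 | h1
  · have a1 : t ^ 3 < s ^ 3 := pow_lt_pow_left₀ h1 ht.le (by norm_num)
    have a2 : t ^ 2 < s ^ 2 := pow_lt_pow_left₀ h1 ht.le (by norm_num)
    linarith [s_eq]
  · exact h1
  · have a1 : s ^ 3 < t ^ 3 := pow_lt_pow_left₀ h1 s_pos.le (by norm_num)
    have a2 : s ^ 2 < t ^ 2 := pow_lt_pow_left₀ h1 s_pos.le (by norm_num)
    linarith [s_eq]

/-- the distortion -/
noncomputable def d : ℝ := 2 * (1 - s)
noncomputable def phi : ℝ := Real.arcsin s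
noncomputable def A : ℝ := 2 * phi
/-- slope of the linear function -/
noncomputable def kap : ℝ := phi / s
/-- height of the cone -/
noncomputable def lam : ℝ := Real.pi / 3 + 2 * √3 - 2 * d
/-- constant of the ceiling -/
noncomputable def cei : ℝ := 4 * √3 - 4 * d - Real.pi / 3

theorem d_gt : 1.30436 < d := by unfold d; linarith [s_lt]
theorem d_lt : d < 1.3044 := by unfold d; linarith [s_gt]
theorem two_sub_d : 2 - d = 2 * s := by unfold d; ring

theorem sin_phi : Real.sin phi = s :=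
  Real.sin_arcsin (by linarith [s_pos]) (by linarith [s_lt])

theorem phi_pos : 0 < phi := Real.arcsin_pos.2 s_pos
theorem phi_le : phi ≤ Real.pi / 2 := Real.arcsin_le_pi_div_two s

theorem phi_gt : 0.354 < phi := by
  by_contra h
  push Not at h
  have h1 : Real.sin phi ≤ Real.sin 0.354 :=
    Real.sin_le_sin_of_le_of_le_pi_div_two (by linarith [phi_pos, Real.pi_pos])
      (by linarith [Real.pi_gt_three]) h
  have h2 := Real.sin_bound (x := 0.354) (by rw [abs_of_pos] <;> norm_num)
  rw [abs_le, abs_of_pos (by norm_num : (0:ℝ) < 0.354)] at h2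
  rw [sin_phi] at h1
  have := s_gt
  norm_num at h2
  linarith [h2.2]

theorem phi_lt : phi < 0.3565 := by
  by_contra h
  push Not at h
  have h1 : Real.sin 0.3565 ≤ Real.sin phi :=
    Real.sin_le_sin_of_le_of_le_pi_div_two (by linarith [Real.pi_pos])
      phi_le h
  have h2 := Real.sin_bound (x := 0.3565) (by rw [abs_of_pos] <;> norm_num)
  rw [abs_le, abs_of_pos (by norm_num : (0:ℝ) < 0.3565)] at h2
  rw [sin_phi] at h1
  have := s_lt
  norm_num at h2
  linarith [h2.1]

theorem cos_phi_nonneg : 0 ≤ Real.cos phi :=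
  Real.cos_nonneg_of_neg_pi_div_two_le_of_le (by linarith [phi_pos, Real.pi_pos]) phi_le

theorem sin_A : Real.sin A = 1 - s := by
  rw [A, Real.sin_two_mul, sin_phi]
  have h1 : s ^ 2 + Real.cos phi ^ 2 = 1 := by
    rw [← sin_phi]; exact Real.sin_sq_add_cos_sq phi
  have h0 := cos_phi_nonneg
  have hs := s_pos
  have hs1 := s_lt
  have h2 : (2 * s * Real.cos phi) ^ 2 = (1 - s) ^ 2 := by
    have e : (2 * s * Real.cos phi) ^ 2 = 4 * s ^ 2 * Real.cos phi ^ 2 := by ring
    have e2 : Real.cos phi ^ 2 = 1 - s ^ 2 := by linarith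
    rw [e, e2]
    have e3 : 4 * s ^ 2 * (1 + s) = 1 - s := by linarith [s_eq]
    calc 4 * s ^ 2 * (1 - s ^ 2) = (4 * s ^ 2 * (1 + s)) * (1 - s) := by ring
      _ = (1 - s) ^ 2 := by rw [e3]; ring
  have h3 : 0 ≤ 2 * s * Real.cos phi := by positivity
  exact (pow_left_inj₀ h3 (by linarith) (by norm_num)).1 h2

theorem cos_A : Real.cos A = 1 - 2 * s ^ 2 := by
  rw [A, Real.cos_two_mul, ← sin_phi]
  have := Real.sin_sq_add_cos_sq phi
  linarith

theorem A_gt : 0.708 < A := by unfold A; linarith [phi_gt]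
theorem A_lt : A < 0.713 := by unfold A; linarith [phi_lt]

theorem kap_pos : 0 < kap := div_pos phi_pos s_pos
theorem kap_mul : kap * (2 - d) = A := by
  rw [two_sub_d, kap, A]
  have := s_pos.ne'
  field_simp
theorem kap_lt : kap < 1.0251 := by
  rw [kap, div_lt_iff₀ s_pos]
  have := phi_lt
  have := s_gt
  linarith

theorem sqrt3_gt : 1.73205 < √3 := by
  rw [Real.lt_sqrt (by norm_num)]; norm_num
theorem sqrt3_lt : √3 < 1.732051 := by
  rw [Real.sqrt_lt' (by norm_num)]; norm_num

theorem pi_gt : 3.1415 < Real.pi := Real.pi_gt_d4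
theorem pi_lt : Real.pi < 3.1416 := Real.pi_lt_d4

theorem lam_gt : 1.9024 < lam := by unfold lam; linarith [sqrt3_gt, pi_gt, d_lt]
theorem lam_lt : lam < 1.9026 := by unfold lam; linarith [sqrt3_lt, pi_lt, d_gt]
theorem cei_gt : 0.6633 < cei := by unfold cei; linarith [sqrt3_gt, pi_lt, d_lt]
theorem cei_lt : cei < 0.6637 := by unfold cei; linarith [sqrt3_lt, pi_gt, d_gt]

/-- `λ sin x ≤ sin (λ x)` -/
theorem mul_sin_le {l x : ℝ} (hl0 : 0 ≤ l) (hl1 : l ≤ 1) (hx0 : 0 ≤ x) (hx : x ≤ Real.pi) :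
    l * Real.sin x ≤ Real.sin (l * x) := by
  have m0 : (0 : ℝ) ∈ Set.Icc 0 Real.pi := ⟨le_rfl, Real.pi_pos.le⟩
  have mx : x ∈ Set.Icc 0 Real.pi := ⟨hx0, hx⟩
  have h1 : 0 ≤ 1 - l := by linarith
  have h2 : 1 - l + l = 1 := by ring
  have h := strictConcaveOn_sin_Icc.concaveOn.2 m0 mx h1 hl0 h2
  simpa using h

/-- Lower estimate for the chord. -/
theorem lb_of {c t : ℝ} (hc : c ≤ 2) (ht0 : 0 ≤ t) (ht1 : t ≤ 2 * Real.pi - A)
    (h : kap * (c - d) ≤ t) : c ≤ d + 2 * Real.sin (t / 2) := by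
  have hpi := Real.pi_pos
  have hA := A_gt
  rcases le_or_gt c d with h1 | h1
  · have : 0 ≤ Real.sin (t / 2) :=
      Real.sin_nonneg_of_nonneg_of_le_pi (by linarith) (by linarith)
    linarith
  · have hk := kap_pos
    have key : (c - d) / 2 ≤ Real.sin (t / 2) := by
      rcases le_or_gt (t / 2) (Real.pi / 2) with h2 | h2
      · have e1 : (c - d) / (2 * s) * Real.sin phi ≤ Real.sin ((c - d) / (2 * s) * phi) := by
          apply mul_sin_le
          · exact div_nonneg (by linarith) (by linarith [s_pos])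
          · rw [div_le_one (by linarith [s_pos]), ← two_sub_d]; linarith
          · exact phi_pos.le
          · linarith [phi_le]
        have e2 : (c - d) / (2 * s) * Real.sin phi = (c - d) / 2 := by
          rw [sin_phi]
          have := s_pos.ne'
          field_simp
        have e3 : (c - d) / (2 * s) * phi = kap * (c - d) / 2 := by
          rw [kap]
          have := s_pos.ne'
          field_simp
        rw [e2, e3] at e1
        refine e1.trans (Real.sin_le_sin_of_le_of_le_pi_div_two ?_ h2 (by linarith))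
        have : 0 ≤ kap * (c - d) := mul_nonneg hk.le (by linarith)
        linarith
      · have e1 : Real.sin (t / 2) = Real.sin (Real.pi - t / 2) := (Real.sin_pi_sub _).symm
        have e2 : Real.sin phi ≤ Real.sin (Real.pi - t / 2) := by
          apply Real.sin_le_sin_of_le_of_le_pi_div_two
          · linarith [phi_pos]
          · linarith
          · have : A = 2 * phi := rfl
            linarith
        rw [e1]
        rw [sin_phi] at e2
        have : c - d ≤ 2 * s := by rw [← two_sub_d]; linarith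
        linarith
    linarith

theorem ub1 {c t : ℝ} (hc : 0 ≤ c) (ht0 : 0 ≤ t) (ht : t ≤ 2 * A) :
    2 * Real.sin (t / 2) ≤ d + c := by
  have h : Real.sin (t / 2) ≤ Real.sin A := by
    apply Real.sin_le_sin_of_le_of_le_pi_div_two
    · linarith [Real.pi_pos]
    · linarith [A_lt, pi_gt]
    · linarith
  rw [sin_A] at h
  unfold d
  linarith

theorem ub2 {c t : ℝ} (hc : 0 ≤ c) (ht0 : 0 ≤ t) (ht : (t - 2 * A) * (1 - 2 * s ^ 2) ≤ c) :
    2 * Real.sin (t / 2) ≤ d + c := by
  rcases le_or_gt t (2 * A) with h | h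
  · exact ub1 hc ht0 h
  · have hz : 0 ≤ t / 2 - A := by linarith
    have e : t / 2 = A + (t / 2 - A) := by ring
    rw [e, Real.sin_add, sin_A, cos_A]
    have h1 : Real.cos (t / 2 - A) ≤ 1 := Real.cos_le_one _
    have h2 : Real.sin (t / 2 - A) ≤ t / 2 - A := Real.sin_le hz
    have hs := s_pos
    have hs1 := s_lt
    have h3 : 0 ≤ 1 - 2 * s ^ 2 := by nlinarith
    have h4 : (1 - s) * Real.cos (t / 2 - A) ≤ (1 - s) * 1 :=
      mul_le_mul_of_nonneg_left h1 (by linarith)
    have h5 : (1 - 2 * s ^ 2) * Real.sin (t / 2 - A) ≤ (1 - 2 * s ^ 2) * (t / 2 - A) :=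
      mul_le_mul_of_nonneg_left h2 h3
    unfold d
    nlinarith

theorem ub3 {c t : ℝ} (hc : 0 ≤ c) (ht0 : 0 ≤ t)
    (ht : t ≤ 2 * Real.pi / 3 + 2 * (d + c - √3)) :
    2 * Real.sin (t / 2) ≤ d + c := by
  rcases le_or_gt t (2 * A) with h | h
  · exact ub1 hc ht0 h
  · set z := t / 2 - Real.pi / 3 with hz
    have e : t / 2 = Real.pi / 3 + z := by rw [hz]; ring
    have hzc : √3 + z ≤ d + c := by rw [hz]; linarith
    suffices hh : 2 * Real.sin (t / 2) ≤ √3 + z by linarith
    rw [e, Real.sin_add, Real.sin_pi_div_three, Real.cos_pi_div_three]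
    have h3 := sqrt3_gt
    have h1 : Real.cos z ≤ 1 := Real.cos_le_one _
    rcases le_or_gt 0 z with hz0 | hz0
    · have h2 : Real.sin z ≤ z := Real.sin_le hz0
      nlinarith
    · have hzl : -0.4 < z := by
        rw [hz]; linarith [A_gt, pi_lt]
      have h4 := Real.sin_gt_sub_cube (x := -z) (by linarith)
      have h5 := Real.sin_gt_sub_cube (x := -z / 2) (by linarith)
      have h6 : Real.cos z = 1 - 2 * Real.sin (-z / 2) ^ 2 := by
        have : Real.cos z = Real.cos (2 * (-z / 2)) := by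
          rw [← Real.cos_neg]; congr 1; ring
        rw [this, Real.cos_two_mul]
        have := Real.sin_sq_add_cos_sq (-z / 2)
        linarith
      set y := -z with hy
      have hy0 : 0 < y := by rw [hy]; linarith
      have hy1 : y < 0.4 := by rw [hy]; linarith
      have hze : z = -y := by rw [hy]; ring
      have h7 : 0.48 * y ≤ Real.sin (y / 2) := by nlinarith [mul_pos hy0 hy0]
      have h8 : (0.48 * y) ^ 2 ≤ Real.sin (y / 2) ^ 2 := by
        apply pow_le_pow_left₀ (by positivity) h7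
      have h9 : Real.cos z ≤ 1 - 0.46 * y ^ 2 := by rw [h6]; nlinarith
      have h10 : Real.sin z ≤ z + y ^ 3 / 6 := by
        rw [hze, Real.sin_neg]; linarith
      have h11 : y ^ 3 / 6 ≤ 0.1 * y ^ 2 := by nlinarith [mul_pos hy0 hy0]
      nlinarith [mul_pos hy0 hy0]

end H921GH
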