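import Mathlib
import Pool.Agent.H921GH.Basic

/-! Plane geometry lemmas, in coordinates. -/

set_option autoImplicit false
set_option maxHeartbeats 1000000

namespace H921GH

theorem dsq_gt : 1.7013 < d ^ 2 := by
  have := mul_self_lt_mul_self (by norm_num : (0:ℝ) ≤ 1.30436) d_gt
  nlinarith only [this]

theorem ssq_lt : s ^ 2 < 0.12098 := by
  have := mul_self_lt_mul_self s_pos.le s_lt
  nlinarith only [this]

theorem sq_gt_of {a : ℝ} (h : d < a) : 1.7013 < a ^ 2 := by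
  have := mul_self_lt_mul_self (by linarith [d_gt] : (0:ℝ) ≤ d) h
  nlinarith only [this, dsq_gt]

theorem le_of_sq {a b : ℝ} (h : a ^ 2 ≤ b ^ 2) (hb : 0 ≤ b) : a ≤ b :=
  (abs_le_of_sq_le_sq' h hb).2

theorem G1a {p y p' y' b I : ℝ} (hI0 : 0 ≤ I) (hI : I = p * p' + y * y')
    (hb : b ^ 2 = p' ^ 2 + y' ^ 2) (hp : 0 ≤ p) (hy' : 0 ≤ y')
    (h : y' * p ≤ y * p') : p * b ≤ I := by
  have h1 : (p * b) ^ 2 ≤ I ^ 2 := by
    have e : I ^ 2 - (p * b) ^ 2 = y' * (2 * p * (y * p') + y ^ 2 * y' - p ^ 2 * y') := by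
      rw [mul_pow, hb, hI]; ring
    have e2 : 0 ≤ 2 * p * (y * p') + y ^ 2 * y' - p ^ 2 * y' := by
      have h3 : p * (y' * p) ≤ p * (y * p') := mul_le_mul_of_nonneg_left h hp
      have h4 : 0 ≤ y ^ 2 * y' := by positivity
      have h5 : 0 ≤ p ^ 2 * y' := by positivity
      nlinarith only [h3, h4, h5]
    have := mul_nonneg hy' e2
    linarith only [this, e]
  exact le_of_sq h1 hI0

theorem G1 {p y p' y' a b c : ℝ} (ha0 : 0 ≤ a) (hb0 : 0 ≤ b) (hc1 : 1 < c)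
    (ha : a ^ 2 = p ^ 2 + y ^ 2) (hb : b ^ 2 = p' ^ 2 + y' ^ 2)
    (hc : c ^ 2 = (p - p') ^ 2 + (y - y') ^ 2)
    (hap : a ^ 2 ≤ 2 * p) (hbp : b ^ 2 ≤ 2 * p') (hy : 0 ≤ y) (hy' : 0 ≤ y') (hab : a ≤ b) :
    c ≤ b := by
  by_contra hcon
  push Not at hcon
  have hp : 0 ≤ p := by nlinarith only [sq_nonneg a, hap]
  have hp' : 0 ≤ p' := by nlinarith only [sq_nonneg b, hbp]
  obtain ⟨I, hI⟩ : ∃ I, I = p * p' + y * y' := ⟨_, rfl⟩
  have hI0 : 0 ≤ I := by rw [hI]; positivity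
  have hcI : c ^ 2 = a ^ 2 + b ^ 2 - 2 * I := by rw [ha, hb, hc, hI]; ring
  have hbc : b ^ 2 < c ^ 2 := pow_lt_pow_left₀ hcon hb0 (by norm_num)
  have haI : 2 * I < a ^ 2 := by linarith only [hbc, hcI]
  have hc2 : 1 < c ^ 2 := by nlinarith only [hc1]
  have ha1 : 0 < a := by
    rcases ha0.lt_or_eq with h | h
    · exact h
    · rw [← h] at haI
      exfalso
      nlinarith only [haI, hI0]
  have hab2 : a ^ 2 ≤ b ^ 2 := pow_le_pow_left₀ ha0 hab 2
  have ha2 : 0 < a ^ 2 := by positivity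
  rcases le_total (y' * p) (y * p') with h | h
  · have h2 : p * b ≤ I := G1a hI0 hI hb hp hy' h
    have h3 : a ^ 2 * b ≤ 2 * p * b := mul_le_mul_of_nonneg_right hap hb0
    have h4 : b < 1 := by
      by_contra hb1
      push Not at hb1
      have : a ^ 2 * 1 ≤ a ^ 2 * b := mul_le_mul_of_nonneg_left hb1 ha2.le
      linarith only [this, h3, h2, haI]
    have h5 : c ^ 2 ≤ a ^ 2 + b ^ 2 - a ^ 2 * b := by linarith only [hcI, h2, h3]
    have h6 : a ^ 2 * (1 - b) ≤ b ^ 2 * (1 - b) :=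
      mul_le_mul_of_nonneg_right hab2 (by linarith only [h4])
    have h8 : b * b ≤ 1 * b := mul_le_mul_of_nonneg_right h4.le hb0
    have h7 : 0 ≤ (1 - b) * (1 + b - b ^ 2) :=
      mul_nonneg (by linarith only [h4]) (by nlinarith only [h8])
    nlinarith only [h5, h6, h7, hc2]
  · have h2 : p' * a ≤ I := by
      refine G1a (y := y') hI0 ?_ ha hp' hy (by linarith only [h])
      rw [hI]; ring
    have h3 : b ^ 2 * a ≤ 2 * p' * a := mul_le_mul_of_nonneg_right hbp ha0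
    have h4 : b ^ 2 < a := by
      by_contra hb1
      push Not at hb1
      have : a * a ≤ b ^ 2 * a := mul_le_mul_of_nonneg_right hb1 ha0
      nlinarith only [this, h3, h2, haI]
    have h5 : b < 1 := by
      by_contra hb1
      push Not at hb1
      have : 1 * b ≤ b * b := mul_le_mul_of_nonneg_right hb1 hb0
      nlinarith only [this, h4, hab]
    have h6 : c ^ 2 ≤ a ^ 2 + b ^ 2 - b ^ 2 * a := by linarith only [hcI, h2, h3]
    have hb2 : b ^ 2 ≤ 1 := by nlinarith only [h5, hb0]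
    have h7 : b ^ 2 * (1 - a) ≤ 1 * (1 - a) :=
      mul_le_mul_of_nonneg_right hb2 (by linarith only [h5, hab])
    have h8 : a * a ≤ 1 * a := mul_le_mul_of_nonneg_right (by linarith only [h5, hab]) ha0
    nlinarith only [h6, h7, h8, hc2]

theorem G2 {x y x' y' a b c : ℝ} (ha0 : 0 ≤ a) (hb0 : 0 ≤ b)
    (ha : a ^ 2 = (1 - x) ^ 2 + y ^ 2) (hb : b ^ 2 = (1 - x') ^ 2 + y' ^ 2)
    (hc : c ^ 2 = (x - x') ^ 2 + (y - y') ^ 2)
    (hx : x ^ 2 + y ^ 2 ≤ 1) (hx' : x' ^ 2 + y' ^ 2 ≤ 1) (hy : 0 ≤ y) (hy' : 0 ≤ y')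
    (hab : a ≤ b) (had : d < a) (hcd : d < c) (ha2 : a ≤ 2) (hc2 : c ≤ 2) :
    a + c - d ≤ b := by
  have d1 := d_gt
  have d2 := d_lt
  have hab2 : a ^ 2 ≤ b ^ 2 := pow_le_pow_left₀ ha0 hab 2
  have ha17 : 1.7013 < a ^ 2 := sq_gt_of had
  have hc17 : 1.7013 < c ^ 2 := sq_gt_of hcd
  have hyy : y ≤ 1 := le_of_sq (by nlinarith only [sq_nonneg x, hx]) (by norm_num)
  have hyy' : y' ≤ 1 := le_of_sq (by nlinarith only [sq_nonneg x', hx']) (by norm_num)
  have hx1 : x ≤ 1 := le_of_sq (by nlinarith only [sq_nonneg y, hx]) (by norm_num)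
  have hxm : -x ≤ 1 := le_of_sq (by nlinarith only [sq_nonneg y, hx]) (by norm_num)
  have hD2 : (y - y') ^ 2 ≤ 1 := by
    have := mul_nonneg (by linarith only [hyy, hy'] : 0 ≤ 1 - (y - y'))
      (by linarith only [hyy', hy] : 0 ≤ 1 + (y - y'))
    nlinarith only [this]
  have hD1sq : 0.7 < (x - x') ^ 2 := by linarith only [hc, hD2, hc17]
  have hD1 : 0.83 ≤ x - x' := by
    rcases le_or_gt 0 (x - x') with h | h
    · by_contra hh
      push Not at hh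
      have := mul_self_lt_mul_self h hh
      nlinarith only [this, hD1sq]
    · exfalso
      have h1 : x - x' < -0.83 := by
        by_contra hh
        push Not at hh
        have := mul_nonneg (by linarith only [hh] : 0 ≤ 0.83 + (x - x'))
          (by linarith only [h] : 0 ≤ 0.83 - (x - x'))
        nlinarith only [this, hD1sq]
      have h2 : x' ≤ 0.15 := by nlinarith only [hb, hx', hab2, ha17]
      have h3 : 1.68 ≤ 1 - x := by linarith only [h1, h2]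
      have h3' := mul_self_le_mul_self (by norm_num : (0:ℝ) ≤ 1.68) h3
      have h4 : 2.82 ≤ a ^ 2 := by nlinarith only [sq_nonneg y, h3', ha]
      have h5 : x' ≤ -0.41 := by nlinarith only [hb, hx', hab2, h4]
      linarith only [h1, h5, hxm]
  obtain ⟨g, hg⟩ : ∃ g, g = (1 - x) * (x' - x) + y * (y - y') := ⟨_, rfl⟩
  have hbg : b ^ 2 = a ^ 2 + c ^ 2 - 2 * g := by rw [ha, hb, hc, hg]; ring
  have hg1 : g ≤ 0.343 := by
    have e1 : (1 - x) * (x' - x) ≤ (1 - x) * (-0.83) :=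
      mul_le_mul_of_nonneg_left (by linarith only [hD1]) (by linarith only [hx1])
    have e2 : y * (y - y') ≤ 1 - x ^ 2 := by nlinarith only [mul_nonneg hy hy', hx]
    have e3 := sq_nonneg (x - 0.415)
    rw [hg]
    nlinarith only [e1, e2, e3]
  have hprod : (a - d) * (c - d) ≤ 0.4841 := by
    have e1 : (a - d) * (c - d) ≤ (2 - d) * (2 - d) :=
      mul_le_mul (by linarith only [ha2]) (by linarith only [hc2]) (by linarith only [hcd])
        (by linarith only [d2])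
    have e2 : (2 - d) * (2 - d) ≤ 0.69564 * 0.69564 :=
      mul_le_mul (by linarith only [d1]) (by linarith only [d1]) (by linarith only [d2])
        (by norm_num)
    linarith only [e1, e2]
  have hdd := dsq_gt
  have hsq : (a + c - d) ^ 2 ≤ b ^ 2 := by
    rw [hbg]
    nlinarith only [hprod, hg1, hdd]
  exact le_of_sq hsq hb0

theorem uv_bounds {u v a r : ℝ}
    (ha : a ^ 2 = (1 - u) ^ 2 + v ^ 2) (hx : u ^ 2 + v ^ 2 ≤ 1) (had : d < a)
    (hr0 : 0 ≤ r) (hr : r ^ 2 = u ^ 2 + (v - d / 2) ^ 2) (hrd : r < 2 - d) :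
    u ≤ 0.15 ∧ -(2 * s) ≤ u ∧ v - d / 2 ≤ s ∧ -(2 * s) ≤ v - d / 2 := by
  have ha17 : 1.7013 < a ^ 2 := sq_gt_of had
  have e := two_sub_d
  have hs := s_pos
  have hr2 : r ^ 2 < (2 * s) ^ 2 := by rw [← e]; exact pow_lt_pow_left₀ hrd hr0 (by norm_num)
  refine ⟨by nlinarith only [ha, hx, ha17], ?_, ?_, ?_⟩
  · have : u ^ 2 ≤ (2 * s) ^ 2 := by linarith only [sq_nonneg (v - d / 2), hr, hr2]
    exact (abs_le_of_sq_le_sq' this (by linarith only [hs])).1
  · have : v ≤ 1 := le_of_sq (by nlinarith only [sq_nonneg u, hx]) (by norm_num)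
    have h2 : d / 2 = 1 - s := by unfold d; ring
    linarith only [this, h2]
  · have : (v - d / 2) ^ 2 ≤ (2 * s) ^ 2 := by linarith only [sq_nonneg u, hr, hr2]
    exact (abs_le_of_sq_le_sq' this (by linarith only [hs])).1

theorem prod_lb {x y m n : ℝ} (hm : 0 ≤ m) (hn : 0 ≤ n) (hx : x ≤ m) (hx' : -n ≤ x)
    (hy : y ≤ m) (hy' : -n ≤ y) : -(m * n) ≤ x * y := by
  have hmn := mul_nonneg hm hn
  rcases le_total 0 x with h | h <;> rcases le_total 0 y with h' | h'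
  · have := mul_nonneg h h'; linarith only [this, hmn]
  · have e1 : x * (-y) ≤ m * n :=
      mul_le_mul hx (by linarith only [hy']) (by linarith only [h']) hm
    linarith only [e1]
  · have e1 : y * (-x) ≤ m * n :=
      mul_le_mul hy (by linarith only [hx']) (by linarith only [h]) hm
    linarith only [e1]
  · have := mul_nonneg_of_nonpos_of_nonpos h h'; linarith only [this, hmn]

theorem G3 {u v u' v' a a' r r' c : ℝ}
    (ha : a ^ 2 = (1 - u) ^ 2 + v ^ 2) (hx : u ^ 2 + v ^ 2 ≤ 1) (had : d < a)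
    (hr0 : 0 ≤ r) (hr : r ^ 2 = u ^ 2 + (v - d / 2) ^ 2) (hrd : r < 2 - d)
    (ha' : a' ^ 2 = (1 - u') ^ 2 + v' ^ 2) (hx' : u' ^ 2 + v' ^ 2 ≤ 1)
    (had' : d < a')
    (hr0' : 0 ≤ r') (hr' : r' ^ 2 = u' ^ 2 + (v' - d / 2) ^ 2) (hrd' : r' < 2 - d)
    (hc : c ^ 2 = (u - u') ^ 2 + (v - v') ^ 2) : c ≤ d := by
  obtain ⟨u1, u2, v1, v2⟩ := uv_bounds ha hx had hr0 hr hrd
  obtain ⟨u1', u2', v1', v2'⟩ := uv_bounds ha' hx' had' hr0' hr' hrd'
  have d1 := d_gt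
  have e := two_sub_d
  have hs := s_pos
  have hs1 := s_lt
  have hr2 : r ^ 2 < (2 * s) ^ 2 := by rw [← e]; exact pow_lt_pow_left₀ hrd hr0 (by norm_num)
  have hr2' : r' ^ 2 < (2 * s) ^ 2 := by rw [← e]; exact pow_lt_pow_left₀ hrd' hr0' (by norm_num)
  have k1 : -(0.15 * (2 * s)) ≤ u * u' :=
    prod_lb (by norm_num) (by linarith only [hs]) u1 u2 u1' u2'
  have k2 : -(s * (2 * s)) ≤ (v - d / 2) * (v' - d / 2) :=
    prod_lb hs.le (by linarith only [hs]) v1 v2 v1' v2'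
  have hcc : c ^ 2 = r ^ 2 + r' ^ 2 - 2 * (u * u') - 2 * ((v - d / 2) * (v' - d / 2)) := by
    rw [hc, hr, hr']; ring
  have hs2 := ssq_lt
  have hd2 := dsq_gt
  have hfin : c ^ 2 ≤ d ^ 2 := by nlinarith only [hcc, hr2, hr2', k1, k2, hs1, hs2, hd2]
  exact le_of_sq hfin (by linarith only [d1])

theorem G4 {u v u' v' a b c : ℝ}
    (ha : a ^ 2 = (1 - u) ^ 2 + v ^ 2) (hb : b ^ 2 = (1 - u') ^ 2 + v' ^ 2)
    (hc : c ^ 2 = (u - u') ^ 2 + (v + v') ^ 2)
    (hx : u ^ 2 + v ^ 2 ≤ 1) (hx' : u' ^ 2 + v' ^ 2 ≤ 1) : a + b + c ≤ 4 + d := by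
  have d1 := d_gt
  have h1 : a ^ 2 + b ^ 2 + c ^ 2 ≤ 9 := by
    nlinarith only [sq_nonneg (1 + u + u'), sq_nonneg (v - v'), ha, hb, hc, hx, hx']
  have h2 : (a + b + c) ^ 2 ≤ 27 := by
    nlinarith only [sq_nonneg (a - b), sq_nonneg (b - c), sq_nonneg (a - c), h1]
  have h3 : (a + b + c) ^ 2 ≤ (4 + d) ^ 2 := by
    have := mul_self_lt_mul_self (by norm_num : (0:ℝ) ≤ 5.3) (by linarith only [d1] : 5.3 < 4 + d)
    nlinarith only [this, h2]
  exact le_of_sq h3 (by linarith only [d1])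

theorem G5 {u v a r : ℝ}
    (ha : a ^ 2 = (1 - u) ^ 2 + v ^ 2) (hv : 0 ≤ v)
    (hr0 : 0 ≤ r) (hr : r ^ 2 = u ^ 2 + (v - d / 2) ^ 2) (hrd : r < 2 - d) :
    a - d ≤ 1.286 * v := by
  have d1 := d_gt
  have d2 := d_lt
  by_contra hcon
  push Not at hcon
  have e := two_sub_d
  have hr2 : r ^ 2 < (2 * s) ^ 2 := by rw [← e]; exact pow_lt_pow_left₀ hrd hr0 (by norm_num)
  have hs2 := ssq_lt
  have h0 : 0 ≤ d + 1.286 * v := by linarith only [hv, d1]
  have h1 : (d + 1.286 * v) ^ 2 < a ^ 2 :=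
    pow_lt_pow_left₀ (by linarith only [hcon]) h0 (by norm_num)
  have hd2 := dsq_gt
  have hu2 : u ^ 2 < 0.059 + d * v - v ^ 2 := by nlinarith only [hr, hr2, hs2, hd2]
  have hdv : 1.30436 * v ≤ d * v := mul_le_mul_of_nonneg_right d1.le hv
  have hdv2 : d * v ≤ 1.3044 * v := mul_le_mul_of_nonneg_right d2.le hv
  have hE : 0.64 + 2.04 * v + 1.65 * v ^ 2 < -(2 * u) := by
    nlinarith only [h1, ha, hu2, hd2, hdv, hdv2, hv, sq_nonneg v]
  have hE0 : 0 ≤ 0.64 + 2.04 * v + 1.65 * v ^ 2 := by positivity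
  have hE2 : (0.64 + 2.04 * v + 1.65 * v ^ 2) ^ 2 < (-(2 * u)) ^ 2 :=
    pow_lt_pow_left₀ hE hE0 (by norm_num)
  have hv3 : 0 ≤ v ^ 3 := by positivity
  have hv4 : 0 ≤ v ^ 4 := by positivity
  nlinarith only [sq_nonneg (v - 0.1268), hE2, hu2, hdv2, hv3, hv4]

theorem G6 {u v a r q : ℝ}
    (ha : a ^ 2 = (1 - u) ^ 2 + v ^ 2) (hx : u ^ 2 + v ^ 2 ≤ 1) (hv : 0 ≤ v) (had : d < a)
    (hr0 : 0 ≤ r) (hr : r ^ 2 = u ^ 2 + (v - d / 2) ^ 2) (hrd : r < 2 - d)
    (hq0 : 0 ≤ q) (hq : q ^ 2 = u ^ 2 + (v + d / 2) ^ 2) :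
    1.3768 + 1.0251 * (a - d) ≤ 2 * q := by
  have d1 := d_gt
  have d2 := d_lt
  have h5 := G5 ha hv hr0 hr hrd
  suffices h : 0.6884 + 0.6592 * v ≤ q by linarith only [h5, h, hv]
  have hpos : 0 ≤ 0.6884 + 0.6592 * v := by positivity
  have hsq : (0.6884 + 0.6592 * v) ^ 2 ≤ q ^ 2 := by
    rcases le_or_gt 0.11 v with h | h
    · have h1 : 0.6884 + 0.6592 * v ≤ v + d / 2 := by linarith only [h, d1]
      have h2 := pow_le_pow_left₀ hpos h1 2
      linarith only [sq_nonneg u, h2, hq]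
    · have ha17 : 1.7013 < a ^ 2 := sq_gt_of had
      have hu : u < -0.2996 := by
        by_contra hcon
        push Not at hcon
        have hv2 : v * v < 0.11 * 0.11 := mul_self_lt_mul_self hv h
        have hu1 : u ≤ 1 := le_of_sq (by nlinarith only [sq_nonneg v, hx]) (by norm_num)
        have h3 := mul_self_le_mul_self (by linarith only [hu1] : 0 ≤ 1 - u)
          (by linarith only [hcon] : 1 - u ≤ 1.2996)
        nlinarith only [h3, hv2, ha, ha17]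
      have hu2 := mul_self_lt_mul_self (by norm_num : (0:ℝ) ≤ 0.2996)
        (by linarith only [hu] : 0.2996 < -u)
      have hdv : 1.30436 * v ≤ d * v := mul_le_mul_of_nonneg_right d1.le hv
      rw [hq]
      nlinarith only [hu2, hdv, dsq_gt, sq_nonneg v, hv]
  exact le_of_sq hsq hq0

end H921GH
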