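import Mathlib
import Pool.Agent.H921GH.Geom

/-! The function on the upper half disc and its distortion. -/

set_option autoImplicit false
set_option maxHeartbeats 1000000

namespace H921GH

open Complex ComplexConjugate

theorem norm_sq_coord (z : ℂ) : ‖z‖ ^ 2 = z.re ^ 2 + z.im ^ 2 := by
  rw [Complex.sq_norm, Complex.normSq_apply]; ring

noncomputable def da (x : ℂ) : ℝ := ‖x - 1‖
noncomputable def dr (x : ℂ) : ℝ := ‖x - ((d / 2 : ℝ) : ℂ) * I‖
noncomputable def dq (x : ℂ) : ℝ := ‖x + ((d / 2 : ℝ) : ℂ) * I‖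

theorem da_nonneg (x : ℂ) : 0 ≤ da x := norm_nonneg _
theorem dr_nonneg (x : ℂ) : 0 ≤ dr x := norm_nonneg _
theorem dq_nonneg (x : ℂ) : 0 ≤ dq x := norm_nonneg _

theorem da_sq (x : ℂ) : da x ^ 2 = (1 - x.re) ^ 2 + x.im ^ 2 := by
  rw [da, norm_sq_coord]; simp; ring
theorem dr_sq (x : ℂ) : dr x ^ 2 = x.re ^ 2 + (x.im - d / 2) ^ 2 := by
  rw [dr, norm_sq_coord]; simp
theorem dq_sq (x : ℂ) : dq x ^ 2 = x.re ^ 2 + (x.im + d / 2) ^ 2 := by
  rw [dq, norm_sq_coord]; simp

theorem unit_sq {x : ℂ} (hx : ‖x‖ ≤ 1) : x.re ^ 2 + x.im ^ 2 ≤ 1 := by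
  rw [← norm_sq_coord]
  have := norm_nonneg x
  nlinarith only [this, hx]

theorem da_le_two {x : ℂ} (hx : ‖x‖ ≤ 1) : da x ≤ 2 := by
  calc da x ≤ ‖x‖ + ‖(1:ℂ)‖ := norm_sub_le _ _
    _ ≤ 2 := by rw [norm_one]; linarith

theorem dr_le_dq {x : ℂ} (hy : 0 ≤ x.im) : dr x ≤ dq x := by
  apply le_of_sq _ (dq_nonneg x)
  rw [dr_sq, dq_sq]
  nlinarith only [mul_nonneg hy (by linarith [d_gt] : 0 ≤ d)]

theorem dq_ge {x : ℂ} (_hy : 0 ≤ x.im) : d / 2 + x.im ≤ dq x := by
  apply le_of_sq _ (dq_nonneg x)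
  rw [dq_sq]
  nlinarith only [sq_nonneg x.re]

/-- The function on the upper half disc. -/
noncomputable def w (x : ℂ) : ℝ :=
  if da x ≤ d then max (lam - 2 * dr x) (min A (2 * dq x - cei))
  else if dr x < 2 - d then max (lam - 2 * dr x) (A + kap * (da x - d))
  else A - kap * (da x - d)

/-- cases -/
theorem w_cases (x : ℂ) :
    (da x ≤ d ∧ w x = max (lam - 2 * dr x) (min A (2 * dq x - cei))) ∨
    (d < da x ∧ dr x < 2 - d ∧ w x = max (lam - 2 * dr x) (A + kap * (da x - d))) ∨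
    (d < da x ∧ 2 - d ≤ dr x ∧ w x = A - kap * (da x - d)) := by
  unfold w
  by_cases h1 : da x ≤ d
  · left; exact ⟨h1, if_pos h1⟩
  · right
    by_cases h2 : dr x < 2 - d
    · left; exact ⟨not_le.1 h1, h2, by rw [if_neg h1, if_pos h2]⟩
    · right; exact ⟨not_le.1 h1, not_lt.1 h2, by rw [if_neg h1, if_neg h2]⟩

section point

variable {x : ℂ} (hx : ‖x‖ ≤ 1) (hy : 0 ≤ x.im)

include hx in
theorem kap_da : kap * (da x - d) ≤ A := by
  rw [← kap_mul]
  exact mul_le_mul_of_nonneg_left (by linarith [da_le_two hx]) kap_pos.le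

theorem kap_da_nonneg {x : ℂ} (h : d < da x) : 0 ≤ kap * (da x - d) :=
  mul_nonneg kap_pos.le (by linarith)

include hx hy in
theorem ceil_of_I (h1 : d < da x) (h2 : dr x < 2 - d) :
    A + kap * (da x - d) ≤ 2 * dq x - cei := by
  have := G6 (da_sq x) (unit_sq hx) hy h1 (dr_nonneg x) (dr_sq x) h2 (dq_nonneg x) (dq_sq x)
  have hk := kap_lt
  have h3 : kap * (da x - d) ≤ 1.0251 * (da x - d) :=
    mul_le_mul_of_nonneg_right hk.le (by linarith)
  have := A_lt
  have := cei_lt
  linarith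

include hy in
theorem slope_of_I (h2 : dr x < 2 - d) (h1 : d < da x) :
    (kap * (da x - d)) * (1 - 2 * s ^ 2) ≤ x.im := by
  have h5 := G5 (da_sq x) hy (dr_nonneg x) (dr_sq x) h2
  have hk := kap_lt
  have h3 : kap * (da x - d) ≤ 1.0251 * (1.286 * x.im) :=
    mul_le_mul hk.le h5 (by linarith) (by norm_num)
  have hs := mul_self_lt_mul_self (by norm_num : (0:ℝ) ≤ 0.3478) s_gt
  have hs1 : 1 - 2 * s ^ 2 ≤ 0.7581 := by nlinarith only [hs]
  have hs0 : 0 ≤ 1 - 2 * s ^ 2 := by linarith [ssq_lt]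
  have h4 : (kap * (da x - d)) * (1 - 2 * s ^ 2) ≤ 1.0251 * (1.286 * x.im) * 0.7581 :=
    mul_le_mul h3 hs1 hs0 (by positivity)
  linarith

include hx hy in
theorem F0 : 0 ≤ w x ∧ w x ≤ lam := by
  have hA := A_gt
  have hA' := A_lt
  have hl := lam_gt
  have hc := cei_lt
  have hd := d_gt
  have hr := dr_nonneg x
  rcases w_cases x with ⟨_, h⟩ | ⟨h1, _, h⟩ | ⟨h1, _, h⟩
  · rw [h]
    constructor
    · apply le_max_of_le_right
      apply le_min (by linarith)
      have := dq_ge hy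
      linarith
    · apply max_le (by linarith)
      exact (min_le_left _ _).trans (by linarith)
  · have h2 := kap_da hx
    have h3 := kap_da_nonneg h1
    rw [h]
    constructor
    · apply le_max_of_le_right; linarith
    · apply max_le <;> linarith
  · have h2 := kap_da hx
    have h3 := kap_da_nonneg h1
    rw [h]
    constructor <;> linarith

theorem F1 (h : dr x < 2 - d) : lam - 2 * dr x ≤ w x := by
  rcases w_cases x with ⟨_, h'⟩ | ⟨_, _, h'⟩ | ⟨_, h2, _⟩
  · rw [h']; exact le_max_left _ _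
  · rw [h']; exact le_max_left _ _
  · linarith

include hx hy in
theorem F2 : w x = lam - 2 * dr x ∨
    ((w x - A) * (1 - 2 * s ^ 2) ≤ x.im ∧ w x ≤ 2 * dq x - cei) := by
  have hs0 : 0 ≤ 1 - 2 * s ^ 2 := by linarith [ssq_lt]
  rcases w_cases x with ⟨_, h⟩ | ⟨h1, h2, h⟩ | ⟨h1, h2, h⟩
  · rcases le_total (min A (2 * dq x - cei)) (lam - 2 * dr x) with h3 | h3
    · left; rw [h, max_eq_left h3]
    · right
      rw [h, max_eq_right h3]
      refine ⟨?_, min_le_right _ _⟩
      have h4 : min A (2 * dq x - cei) - A ≤ 0 := by linarith [min_le_left A (2 * dq x - cei)]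
      exact (mul_nonpos_of_nonpos_of_nonneg h4 hs0).trans hy
  · rcases le_total (A + kap * (da x - d)) (lam - 2 * dr x) with h3 | h3
    · left; rw [h, max_eq_left h3]
    · right
      rw [h, max_eq_right h3]
      refine ⟨?_, ceil_of_I hx hy h1 h2⟩
      have := slope_of_I hy h2 h1
      have e : A + kap * (da x - d) - A = kap * (da x - d) := by ring
      rw [e]; exact this
  · right
    have h3 := kap_da_nonneg h1
    constructor
    · have h4 : w x - A ≤ 0 := by rw [h]; linarith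
      exact (mul_nonpos_of_nonpos_of_nonneg h4 hs0).trans hy
    · have := dr_le_dq hy
      have := A_lt
      have := cei_lt
      have := d_lt
      rw [h]; linarith

theorem small_of_dq (hy : 0 ≤ x.im) (h : 2 * dq x - cei < A) : ‖x‖ ≤ d - 1 := by
  have h1 := A_lt
  have h2 := cei_lt
  have hd := d_gt
  have h3 : dq x < 0.68835 := by linarith
  have h4 := mul_self_lt_mul_self (dq_nonneg x) h3
  have h5 := dq_sq x
  have h6 := dsq_gt
  have h7 : 0 ≤ d * x.im := mul_nonneg (by linarith) hy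
  have h8 : ‖x‖ ^ 2 ≤ 0.3 ^ 2 := by
    rw [norm_sq_coord]
    nlinarith only [h4, h5, h6, h7]
  have := le_of_sq h8 (by norm_num)
  linarith

/-- The three types of points. -/
theorem F4 (hy : 0 ≤ x.im) :
    (da x ≤ d ∧ (A ≤ w x ∨ ‖x‖ ≤ d - 1) ∧ (w x ≤ A ∨ dr x < 2 * d - 2)) ∨
    (d < da x ∧ dr x < 2 - d ∧ A + kap * (da x - d) ≤ w x) ∨
    (d < da x ∧ 2 - d ≤ dr x ∧ w x = A - kap * (da x - d)) := by
  rcases w_cases x with ⟨h1, h⟩ | ⟨h1, h2, h⟩ | ⟨h1, h2, h⟩
  · left
    refine ⟨h1, ?_, ?_⟩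
    · rcases le_or_gt A (2 * dq x - cei) with h3 | h3
      · left
        rw [h]
        apply le_max_of_le_right
        rw [min_eq_left h3]
      · right
        exact small_of_dq hy h3
    · rcases le_or_gt (w x) A with h3 | h3
      · left; exact h3
      · right
        have h4 : A < lam - 2 * dr x := by
          rw [h] at h3
          rcases lt_max_iff.1 h3 with h5 | h5
          · exact h5
          · exact absurd h5 (not_lt.2 (min_le_left _ _))
        have := lam_lt
        have := A_gt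
        have := d_gt
        linarith
  · right; left
    exact ⟨h1, h2, by rw [h]; exact le_max_right _ _⟩
  · right; right
    exact ⟨h1, h2, h⟩

theorem F3 (hy : 0 ≤ x.im) : A ≤ w x ∨ ‖x‖ ≤ d - 1 ∨ (d < da x ∧ w x = A - kap * (da x - d)) := by
  rcases F4 hy with ⟨_, h | h, _⟩ | ⟨h1, _, h⟩ | ⟨h1, _, h⟩
  · left; exact h
  · right; left; exact h
  · left; have := kap_da_nonneg h1; linarith
  · right; right; exact ⟨h1, h⟩

include hx in
theorem F5 : w x ≤ 2 * A ∨ w x = lam - 2 * dr x := by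
  have hA := A_gt
  have hk := kap_da hx
  rcases w_cases x with ⟨_, h⟩ | ⟨h1, h2, h⟩ | ⟨h1, h2, h⟩
  · rcases le_total (min A (2 * dq x - cei)) (lam - 2 * dr x) with h3 | h3
    · right; rw [h, max_eq_left h3]
    · left
      rw [h, max_eq_right h3]
      exact (min_le_left _ _).trans (by linarith)
  · rcases le_total (A + kap * (da x - d)) (lam - 2 * dr x) with h3 | h3
    · right; rw [h, max_eq_left h3]
    · left
      rw [h, max_eq_right h3]
      linarith
  · left
    have := kap_da_nonneg h1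
    rw [h]; linarith

theorem min_ge (hy : 0 ≤ x.im) : d - cei ≤ min A (2 * dq x - cei) := by
  apply le_min
  · linarith [d_lt, cei_gt, A_gt]
  · linarith [dq_ge hy]

theorem F6 (hy : 0 ≤ x.im) : 2 - d ≤ dr x ∨ lam - 2 * A ≤ w x := by
  have hA := A_gt
  have hl := lam_lt
  have hd := d_gt
  have hc := cei_lt
  rcases w_cases x with ⟨_, h⟩ | ⟨h1, h2, h⟩ | ⟨h1, h2, h⟩
  · right
    rw [h]
    apply le_max_of_le_right
    have := min_ge hy
    linarith
  · right
    rw [h]
    apply le_max_of_le_right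
    have := kap_da_nonneg h1
    linarith
  · left; exact h2

theorem F7 (hy : 0 ≤ x.im) (hq : dq x < 2 - d) : d - cei ≤ w x := by
  have hA := A_gt
  have hd := d_lt
  have hc := cei_gt
  rcases w_cases x with ⟨_, h⟩ | ⟨h1, h2, h⟩ | ⟨h1, h2, h⟩
  · rw [h]
    apply le_max_of_le_right
    exact min_ge hy
  · rw [h]
    apply le_max_of_le_right
    have := kap_da_nonneg h1
    linarith
  · have := dr_le_dq hy
    linarith

end point

end H921GH
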