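import Mathlib
import Pool.Agent.H921GH.Upper

/-! The pair inequalities for the function on the upper half disc. -/

set_option autoImplicit false
set_option maxHeartbeats 1000000

namespace H921GH

open Complex ComplexConjugate

theorem norm_le_two {x x' : ℂ} (hx : ‖x‖ ≤ 1) (hx' : ‖x'‖ ≤ 1) : ‖x - x'‖ ≤ 2 := by
  have := norm_sub_le x x'
  linarith

theorem norm_le_two' {x x' : ℂ} (hx : ‖x‖ ≤ 1) (hx' : ‖x'‖ ≤ 1) : ‖x - conj x'‖ ≤ 2 :=
  norm_le_two hx (by rw [Complex.norm_conj]; exact hx')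

theorem c_sq (x x' : ℂ) : ‖x - x'‖ ^ 2 = (x.re - x'.re) ^ 2 + (x.im - x'.im) ^ 2 := by
  rw [norm_sq_coord]; simp

theorem c_sq' (x x' : ℂ) : ‖x - conj x'‖ ^ 2 = (x.re - x'.re) ^ 2 + (x.im + x'.im) ^ 2 := by
  rw [norm_sq_coord]; simp

theorem da_sq_le {x : ℂ} (hx : ‖x‖ ≤ 1) : da x ^ 2 ≤ 2 * (1 - x.re) := by
  rw [da_sq]
  nlinarith only [unit_sq hx]

/-- `c ≤ max (a, a')` for two points of the upper half disc at distance larger than `1`. -/
theorem c_le_da {x x' : ℂ} (hx : ‖x‖ ≤ 1) (hy : 0 ≤ x.im) (hx' : ‖x'‖ ≤ 1) (hy' : 0 ≤ x'.im)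
    (hab : da x ≤ da x') (hc : d < ‖x - x'‖) : ‖x - x'‖ ≤ da x' := by
  refine G1 (p := 1 - x.re) (y := x.im) (p' := 1 - x'.re) (y' := x'.im) (a := da x)
    (da_nonneg x) (da_nonneg x') ?_ (da_sq x) (da_sq x') ?_ (da_sq_le hx) (da_sq_le hx') hy hy' hab
  · linarith [d_gt]
  · rw [c_sq]; ring

theorem dr_triangle (x x' : ℂ) : ‖x - x'‖ ≤ dr x + dr x' := by
  unfold dr
  calc ‖x - x'‖ = ‖(x - ((d / 2 : ℝ) : ℂ) * I) - (x' - ((d / 2 : ℝ) : ℂ) * I)‖ := by
        congr 1; ring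
    _ ≤ _ := norm_sub_le _ _

theorem same_aux {x x' : ℂ} (hx : ‖x‖ ≤ 1) (hy : 0 ≤ x.im) (hx' : ‖x'‖ ≤ 1) (hy' : 0 ≤ x'.im)
    (hab : da x ≤ da x') : kap * (‖x - x'‖ - d) ≤ |w x - w x'| := by
  have hk := kap_pos
  rcases le_or_gt ‖x - x'‖ d with hc | hc
  · have : kap * (‖x - x'‖ - d) ≤ 0 := mul_nonpos_of_nonneg_of_nonpos hk.le (by linarith)
    exact this.trans (abs_nonneg _)
  · have hcb := c_le_da hx hy hx' hy' hab hc
    have hkc : kap * (‖x - x'‖ - d) ≤ kap * (da x' - d) :=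
      mul_le_mul_of_nonneg_left (by linarith) hk.le
    have hadd := norm_sub_le x x'
    rcases F4 hy with ⟨h1, h2, h3⟩ | ⟨h1, h2, h3⟩ | ⟨h1, h2, h3⟩ <;>
      rcases F4 hy' with ⟨h1', h2', h3'⟩ | ⟨h1', h2', h3'⟩ | ⟨h1', h2', h3'⟩
    · linarith
    · rcases h3 with h3 | h3
      · refine le_trans ?_ (neg_abs_le _ |> neg_le.1)
        linarith
      · have := dr_triangle x x'
        linarith
    · rcases h2 with h2 | h2
      · refine le_trans ?_ (le_abs_self _)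
        linarith
      · linarith
    · linarith
    · have := G3 (da_sq x) (unit_sq hx) h1 (dr_nonneg x) (dr_sq x) h2 (da_sq x') (unit_sq hx') h1'
        (dr_nonneg x') (dr_sq x') h2' (c_sq x x')
      linarith
    · refine le_trans ?_ (le_abs_self _)
      have := kap_da_nonneg h1
      linarith
    · linarith
    · refine le_trans ?_ (neg_abs_le _ |> neg_le.1)
      have := kap_da_nonneg h1
      linarith
    · refine le_trans ?_ (le_abs_self _)
      have := G2 (da_nonneg x) (da_nonneg x') (da_sq x) (da_sq x') (c_sq x x') (unit_sq hx)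
        (unit_sq hx') hy hy' hab h1 hc (da_le_two hx) (norm_le_two hx hx')
      have h4 : kap * (‖x - x'‖ - d) ≤ kap * (da x' - da x) :=
        mul_le_mul_of_nonneg_left (by linarith) hk.le
      have e : w x - w x' = kap * (da x' - da x) := by rw [h3, h3']; ring
      rw [e]; exact h4

theorem same_lb {x x' : ℂ} (hx : ‖x‖ ≤ 1) (hy : 0 ≤ x.im) (hx' : ‖x'‖ ≤ 1) (hy' : 0 ≤ x'.im) :
    ‖x - x'‖ ≤ d + 2 * Real.sin (|w x - w x'| / 2) := by
  have f := F0 hx hy
  have f' := F0 hx' hy'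
  have hl := lam_lt
  have hpi := pi_gt
  have hA := A_lt
  apply lb_of (norm_le_two hx hx') (abs_nonneg _)
  · have : |w x - w x'| ≤ lam := by rw [abs_le]; constructor <;> linarith
    linarith
  · rcases le_total (da x) (da x') with h | h
    · exact same_aux hx hy hx' hy' h
    · have := same_aux hx' hy' hx hy h
      rw [norm_sub_rev, abs_sub_comm]
      exact this

theorem same_ub_aux {x x' : ℂ} (hx : ‖x‖ ≤ 1) (hx' : ‖x'‖ ≤ 1)
    (hy' : 0 ≤ x'.im) (h : w x' ≤ w x) :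
    2 * Real.sin (|w x - w x'| / 2) ≤ d + ‖x - x'‖ := by
  have hc := norm_nonneg (x - x')
  rw [abs_of_nonneg (by linarith)]
  rcases le_or_gt (w x - w x') (2 * A) with h1 | h1
  · exact ub1 hc (by linarith) h1
  · have f' := F0 hx' hy'
    rcases F5 hx with h2 | h2
    · linarith
    · rcases F6 hy' with h3 | h3
      · have h4 : dr x' ≤ ‖x - x'‖ + dr x := by
          unfold dr
          calc ‖x' - ((d / 2 : ℝ) : ℂ) * I‖
              = ‖-(x - x') + (x - ((d / 2 : ℝ) : ℂ) * I)‖ := by congr 1; ring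
            _ ≤ ‖-(x - x')‖ + ‖x - ((d / 2 : ℝ) : ℂ) * I‖ := norm_add_le _ _
            _ = ‖x - x'‖ + ‖x - ((d / 2 : ℝ) : ℂ) * I‖ := by rw [norm_neg]
        have hs := sqrt3_lt
        have hl := lam_lt
        have hpi := pi_gt
        apply ub3 hc (by linarith)
        linarith
      · have hr := dr_nonneg x
        linarith

theorem same_ub {x x' : ℂ} (hx : ‖x‖ ≤ 1) (hy : 0 ≤ x.im) (hx' : ‖x'‖ ≤ 1) (hy' : 0 ≤ x'.im) :
    2 * Real.sin (|w x - w x'| / 2) ≤ d + ‖x - x'‖ := by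
  rcases le_total (w x') (w x) with h | h
  · exact same_ub_aux hx hx' hy' h
  · have := same_ub_aux hx' hx hy h
    rw [norm_sub_rev, abs_sub_comm]
    exact this

theorem opp_lb {x x' : ℂ} (hx : ‖x‖ ≤ 1) (hy : 0 ≤ x.im) (hx' : ‖x'‖ ≤ 1) (hy' : 0 ≤ x'.im) :
    ‖x - conj x'‖ ≤ d + 2 * Real.sin ((w x + w x') / 2) := by
  have f := F0 hx hy
  have f' := F0 hx' hy'
  have hl := lam_lt
  have hpi := pi_gt
  have hA := A_lt
  have hk := kap_pos
  have hc2 := norm_le_two' hx hx'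
  apply lb_of hc2 (by linarith) (by linarith)
  have hkc : kap * (‖x - conj x'‖ - d) ≤ A := by
    rw [← kap_mul]
    exact mul_le_mul_of_nonneg_left (by linarith) hk.le
  have hadd : ‖x - conj x'‖ ≤ ‖x‖ + ‖x'‖ := by
    have := norm_sub_le x (conj x')
    rwa [Complex.norm_conj] at this
  have small : ‖x - conj x'‖ ≤ d → kap * (‖x - conj x'‖ - d) ≤ w x + w x' := by
    intro h
    have : kap * (‖x - conj x'‖ - d) ≤ 0 := mul_nonpos_of_nonneg_of_nonpos hk.le (by linarith)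
    linarith
  rcases F3 hy with h | h | ⟨h1, h2⟩
  · linarith
  · exact small (by linarith)
  · rcases F3 hy' with h' | h' | ⟨h1', h2'⟩
    · linarith
    · exact small (by linarith)
    · have h4 := G4 (da_sq x) (da_sq x') (c_sq' x x') (unit_sq hx) (unit_sq hx')
      have h5 : kap * (da x + da x' + ‖x - conj x'‖ - 3 * d) ≤ kap * (2 * (2 - d)) :=
        mul_le_mul_of_nonneg_left (by linarith) hk.le
      have h6 : kap * (2 * (2 - d)) = 2 * A := by rw [← kap_mul]; ring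
      rw [h2, h2']
      linarith

theorem opp_c_ge {x x' : ℂ} (hy : 0 ≤ x.im) (hy' : 0 ≤ x'.im) : x.im + x'.im ≤ ‖x - conj x'‖ := by
  have h := Complex.abs_im_le_norm (x - conj x')
  have e : (x - conj x').im = x.im + x'.im := by simp
  rw [e, abs_of_nonneg (by linarith)] at h
  exact h

theorem norm_conj_sub (x : ℂ) : ‖conj x + ((d / 2 : ℝ) : ℂ) * I‖ = dr x := by
  have : conj x + ((d / 2 : ℝ) : ℂ) * I = conj (x - ((d / 2 : ℝ) : ℂ) * I) := by
    rw [map_sub, map_mul, Complex.conj_ofReal, Complex.conj_I]; ring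
  rw [this, Complex.norm_conj]; rfl

theorem norm_conj_add (x : ℂ) : ‖conj x - ((d / 2 : ℝ) : ℂ) * I‖ = dq x := by
  have : conj x - ((d / 2 : ℝ) : ℂ) * I = conj (x + ((d / 2 : ℝ) : ℂ) * I) := by
    rw [map_add, map_mul, Complex.conj_ofReal, Complex.conj_I]; ring
  rw [this, Complex.norm_conj]; rfl

theorem d_le_sum (x x' : ℂ) : d ≤ dr x + ‖x - conj x'‖ + dr x' := by
  have h0 : d = ‖((d / 2 : ℝ) : ℂ) * I - (-(((d / 2 : ℝ) : ℂ) * I))‖ := by
    have e : ((d / 2 : ℝ) : ℂ) * I - (-(((d / 2 : ℝ) : ℂ) * I)) = ((d : ℝ) : ℂ) * I := by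
      push_cast; ring
    rw [e, norm_mul, Complex.norm_I, mul_one, Complex.norm_real, Real.norm_eq_abs,
      abs_of_nonneg (by linarith [d_gt])]
  have h1 : ((d / 2 : ℝ) : ℂ) * I - (-(((d / 2 : ℝ) : ℂ) * I))
      = -(x - ((d / 2 : ℝ) : ℂ) * I) + (x - conj x') + (conj x' + ((d / 2 : ℝ) : ℂ) * I) := by ring
  calc d = ‖-(x - ((d / 2 : ℝ) : ℂ) * I) + (x - conj x') + (conj x' + ((d / 2 : ℝ) : ℂ) * I)‖ := by
        rw [← h1]; exact h0
    _ ≤ ‖-(x - ((d / 2 : ℝ) : ℂ) * I) + (x - conj x')‖ + ‖conj x' + ((d / 2 : ℝ) : ℂ) * I‖ :=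
        norm_add_le _ _
    _ ≤ ‖-(x - ((d / 2 : ℝ) : ℂ) * I)‖ + ‖x - conj x'‖ + ‖conj x' + ((d / 2 : ℝ) : ℂ) * I‖ := by
        have := norm_add_le (-(x - ((d / 2 : ℝ) : ℂ) * I)) (x - conj x')
        linarith
    _ = dr x + ‖x - conj x'‖ + dr x' := by rw [norm_neg, norm_conj_sub]; rfl

theorem dq_le_sum (x x' : ℂ) : dq x' ≤ dr x + ‖x - conj x'‖ := by
  rw [← norm_conj_add]
  unfold dr
  calc ‖conj x' - ((d / 2 : ℝ) : ℂ) * I‖ = ‖(x - ((d / 2 : ℝ) : ℂ) * I) - (x - conj x')‖ := by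
        congr 1; ring
    _ ≤ _ := norm_sub_le _ _

theorem opp_comm (x x' : ℂ) : ‖x - conj x'‖ = ‖x' - conj x‖ := by
  have : x - conj x' = -conj (x' - conj x) := by
    rw [map_sub, Complex.conj_conj]; ring
  rw [this, norm_neg, Complex.norm_conj]

theorem opp_ub {x x' : ℂ} (hx : ‖x‖ ≤ 1) (hy : 0 ≤ x.im) (hx' : ‖x'‖ ≤ 1) (hy' : 0 ≤ x'.im) :
    2 * Real.sin ((w x + w x') / 2) ≤ d + ‖x - conj x'‖ := by
  have f := F0 hx hy
  have f' := F0 hx' hy'
  have hc := norm_nonneg (x - conj x')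
  have hs3 := sqrt3_lt
  have hd := d_gt
  have elam : lam = Real.pi / 3 + 2 * √3 - 2 * d := rfl
  have ecei : cei = 4 * √3 - 4 * d - Real.pi / 3 := rfl
  rcases F2 hx hy with h | ⟨h, g⟩
  · rcases F2 hx' hy' with h' | ⟨h', g'⟩
    · have h1 := d_le_sum x x'
      apply ub3 hc (by linarith)
      linarith
    · have h1 := dq_le_sum x x'
      apply ub3 hc (by linarith)
      linarith
  · rcases F2 hx' hy' with h' | ⟨h', g'⟩
    · have h1 := dq_le_sum x' x
      rw [opp_comm x' x] at h1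
      apply ub3 hc (by linarith)
      linarith
    · have h1 := opp_c_ge hy hy'
      apply ub2 hc (by linarith)
      have e : (w x + w x' - 2 * A) * (1 - 2 * s ^ 2)
          = (w x - A) * (1 - 2 * s ^ 2) + (w x' - A) * (1 - 2 * s ^ 2) := by ring
      rw [e]; linarith

end H921GH
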