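import Mathlib
import Pool.Agent.H921GH.Pair

/-! The points covering the remaining part of the circle, and the correspondence. -/

set_option autoImplicit false
set_option maxHeartbeats 1000000

namespace H921GH

open Complex ComplexConjugate

/-- the point `(0, t)` -/
noncomputable def pt (t : ℝ) : ℂ := (t : ℂ) * I

theorem pt_re (t : ℝ) : (pt t).re = 0 := by simp [pt]
theorem pt_im (t : ℝ) : (pt t).im = t := by simp [pt]

/-- The upper half of the correspondence (points of the disc and angles). -/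
inductive T : ℂ → ℝ → Prop
  | main (x : ℂ) (hx : ‖x‖ ≤ 1) (hy : 0 ≤ x.im) : T x (w x)
  | plus (y : ℝ) (h1 : Real.pi - 0.2 ≤ y) (h2 : y ≤ Real.pi) : T (pt (d / 2)) y
  | pplus (y : ℝ) (h1 : lam ≤ y) (h2 : y ≤ Real.pi - 0.2) : T (pt (2 - d)) y

theorem sin_nonneg_half {t : ℝ} (h0 : 0 ≤ t) (h1 : t ≤ 2 * Real.pi) : 0 ≤ Real.sin (t / 2) :=
  Real.sin_nonneg_of_nonneg_of_le_pi (by linarith) (by linarith)

theorem lb_small {c t : ℝ} (hc : c ≤ d) (h0 : 0 ≤ t) (h1 : t ≤ 2 * Real.pi) :
    c ≤ d + 2 * Real.sin (t / 2) := by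
  have := sin_nonneg_half h0 h1
  linarith

theorem lb_big {c t : ℝ} (hc : c ≤ 2) (h0 : A ≤ t) (h1 : t ≤ 2 * Real.pi - A) :
    c ≤ d + 2 * Real.sin (t / 2) := by
  apply lb_of hc (by linarith [A_gt]) h1
  refine le_trans ?_ h0
  rw [← kap_mul]
  exact mul_le_mul_of_nonneg_left (by linarith) kap_pos.le

theorem lb_tenth {c t : ℝ} (hc : c ≤ d + 0.19) (h0 : 0.2 ≤ t) (h1 : t ≤ 2 * Real.pi - 0.2) :
    c ≤ d + 2 * Real.sin (t / 2) := by
  have h3 : Real.sin 0.1 ≤ Real.sin (t / 2) := by
    rcases le_total (t / 2) (Real.pi / 2) with h | h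
    · exact Real.sin_le_sin_of_le_of_le_pi_div_two (by linarith [Real.pi_pos]) h (by linarith)
    · rw [← Real.sin_pi_sub (t / 2)]
      exact Real.sin_le_sin_of_le_of_le_pi_div_two (by linarith [Real.pi_pos]) (by linarith)
        (by linarith)
  have h4 := Real.sin_gt_sub_cube (x := 0.1) (by norm_num)
  norm_num at h4 ⊢
  linarith

theorem ub_big {c t : ℝ} (hc : 2 - d ≤ c) : 2 * Real.sin (t / 2) ≤ d + c := by
  have := Real.sin_le_one (t / 2)
  linarith

theorem norm_pt (t : ℝ) (ht : 0 ≤ t) : ‖pt t‖ = t := by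
  rw [pt, norm_mul, Complex.norm_I, mul_one, Complex.norm_real, Real.norm_eq_abs, abs_of_nonneg ht]

theorem T_facts {x : ℂ} {α : ℝ} (h : T x α) : ‖x‖ ≤ 1 ∧ 0 ≤ x.im ∧ 0 ≤ α ∧ α ≤ Real.pi := by
  have hpi := pi_gt
  have hd := d_gt
  have hd' := d_lt
  have hl := lam_lt
  have hl' := lam_gt
  cases h with
  | main x hx hy =>
    have f := F0 hx hy
    exact ⟨hx, hy, f.1, by linarith⟩
  | plus y h1 h2 =>
    refine ⟨?_, ?_, by linarith, h2⟩
    · rw [norm_pt _ (by linarith)]; linarith
    · rw [pt_im]; linarith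
  | pplus y h1 h2 =>
    refine ⟨?_, ?_, by linarith, by linarith⟩
    · rw [norm_pt _ (by linarith)]; linarith
    · rw [pt_im]; linarith

theorem csq_pt (x : ℂ) (t : ℝ) : ‖x - pt t‖ ^ 2 = x.re ^ 2 + (x.im - t) ^ 2 := by
  rw [c_sq, pt_re, pt_im]; ring

theorem csq_pt' (x : ℂ) (t : ℝ) : ‖x - conj (pt t)‖ ^ 2 = x.re ^ 2 + (x.im + t) ^ 2 := by
  rw [c_sq', pt_re, pt_im]; ring

theorem dr_eq (x : ℂ) : ‖x - pt (d / 2)‖ = dr x := rfl

theorem dq_eq (x : ℂ) : ‖x - conj (pt (d / 2))‖ = dq x := by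
  have : x - conj (pt (d / 2)) = x + ((d / 2 : ℝ) : ℂ) * I := by
    rw [pt, map_mul, Complex.conj_ofReal, Complex.conj_I]; ring
  rw [this]; rfl

theorem dr_le_d {x : ℂ} (hx : ‖x‖ ≤ 1) (hy : 0 ≤ x.im) : dr x ≤ d := by
  apply le_of_sq _ (by linarith [d_gt])
  rw [dr_sq]
  have h1 := unit_sq hx
  have h2 := dsq_gt
  have h3 : 0 ≤ d * x.im := mul_nonneg (by linarith [d_gt]) hy
  have h4 : d * d ≤ 1.3044 * 1.3044 :=
    mul_le_mul d_lt.le d_lt.le (by linarith [d_gt]) (by norm_num)
  nlinarith only [h1, h2, h3, h4]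

theorem same_main_plus {x : ℂ} (hx : ‖x‖ ≤ 1) (hy : 0 ≤ x.im) {y : ℝ}
    (h1 : Real.pi - 0.2 ≤ y) (h2 : y ≤ Real.pi) :
    dr x ≤ d + 2 * Real.sin ((y - w x) / 2) ∧ 2 * Real.sin ((y - w x) / 2) ≤ d + dr x := by
  have f := F0 hx hy
  have hl := lam_lt
  have hpi := pi_gt
  have hr := dr_nonneg x
  constructor
  · exact lb_small (dr_le_d hx hy) (by linarith) (by linarith)
  · rcases le_or_gt (2 - d) (dr x) with h | h
    · exact ub_big h
    · have h3 := F1 h
      have elam : lam = Real.pi / 3 + 2 * √3 - 2 * d := rfl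
      apply ub3 hr (by linarith)
      linarith

theorem opp_main_plus {x : ℂ} (hx : ‖x‖ ≤ 1) (hy : 0 ≤ x.im) {y : ℝ}
    (h1 : Real.pi - 0.2 ≤ y) (h2 : y ≤ Real.pi) :
    dq x ≤ d + 2 * Real.sin ((w x + y) / 2) ∧ 2 * Real.sin ((w x + y) / 2) ≤ d + dq x := by
  have f := F0 hx hy
  have hl := lam_lt
  have hpi := pi_gt
  have hA := A_gt
  have hA' := A_lt
  have hr := dq_nonneg x
  have hd := d_gt
  constructor
  · apply lb_big _ (by linarith) (by linarith)
    have h3 : dq x ≤ ‖x‖ + ‖((d / 2 : ℝ) : ℂ) * I‖ := norm_add_le _ _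
    have h4 : ‖((d / 2 : ℝ) : ℂ) * I‖ = d / 2 := norm_pt (d / 2) (by linarith)
    have := d_lt
    linarith
  · rcases le_or_gt (2 - d) (dq x) with h | h
    · exact ub_big h
    · have h3 := F7 hy h
      have h4 := dq_ge hy
      have hc := cei_lt
      have e1 : Real.sin ((w x + y) / 2) = Real.cos ((w x + y) / 2 - Real.pi / 2) := by
        rw [Real.cos_sub_pi_div_two]
      have h5 : Real.cos ((w x + y) / 2 - Real.pi / 2) ≤ Real.cos 0.22 :=
        Real.cos_le_cos_of_nonneg_of_le_pi (by norm_num) (by linarith) (by linarith)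
      have h6 := Real.cos_bound (x := 0.22) (by rw [abs_of_pos] <;> norm_num)
      rw [abs_le, abs_of_pos (by norm_num : (0:ℝ) < 0.22)] at h6
      have h7 := h6.2
      norm_num at h7
      rw [e1]
      norm_num at h5
      linarith

theorem same_main_pplus {x : ℂ} (hx : ‖x‖ ≤ 1) (hy : 0 ≤ x.im) {y : ℝ}
    (h1 : lam ≤ y) (h2 : y ≤ Real.pi - 0.2) :
    ‖x - pt (2 - d)‖ ≤ d + 2 * Real.sin ((y - w x) / 2) ∧
      2 * Real.sin ((y - w x) / 2) ≤ d + ‖x - pt (2 - d)‖ := by
  have f := F0 hx hy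
  have hl := lam_lt
  have hpi := pi_gt
  have hd := d_gt
  have hd' := d_lt
  have hu := unit_sq hx
  have hc0 := norm_nonneg (x - pt (2 - d))
  have hcs := csq_pt x (2 - d)
  have hdd := dsq_gt
  have hdd' : d * d ≤ 1.3044 * 1.3044 :=
    mul_le_mul d_lt.le d_lt.le (by linarith [d_gt]) (by norm_num)
  constructor
  · apply lb_small _ (by linarith) (by linarith)
    apply le_of_sq _ (by linarith)
    have h3 : 0 ≤ (2 - d) * x.im := mul_nonneg (by linarith) hy
    nlinarith only [hcs, hu, hdd, hdd', h3, hd, hd']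
  · rcases le_or_gt (2 - d) ‖x - pt (2 - d)‖ with h | h
    · exact ub_big h
    · rcases le_or_gt (2 - d) (dr x) with h3 | h3
      · -- far from the point `x_+`
        have h4 : (2 - d) ^ 2 ≤ dr x ^ 2 := pow_le_pow_left₀ (by linarith) h3 2
        rw [dr_sq] at h4
        have h5 : 0.692 ≤ ‖x - pt (2 - d)‖ := by
          apply le_of_sq _ hc0
          rw [hcs]
          -- d * im ≤ 1 - (2-d)^2 + d^2/4
          have h6 : d * x.im ≤ 1 - (2 - d) ^ 2 + d ^ 2 / 4 := by nlinarith only [h4, hu]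
          have h7 : x.im ≤ 0.722 := by
            by_contra hcon
            push Not at hcon
            have h8 : 1.30436 * 0.722 ≤ d * x.im :=
              mul_le_mul hd.le hcon.le (by norm_num) (by linarith)
            nlinarith only [h6, h8, hdd, hdd', hd, hd']
          have h9 : (2 - 3 * d / 2) * (2 * x.im - (2 - d / 2)) ≤ 0.0436 * 0.0963 := by
            rcases le_or_gt (2 * x.im - (2 - d / 2)) 0 with h10 | h10
            · have : (2 - 3 * d / 2) * (2 * x.im - (2 - d / 2)) ≤ 0 :=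
                mul_nonpos_of_nonneg_of_nonpos (by linarith) h10
              linarith
            · exact mul_le_mul (by linarith) (by linarith) h10.le (by norm_num)
          nlinarith only [h4, h9, hdd, hdd', hd, hd']
        have h6 : Real.sin ((y - w x) / 2) ≤ Real.sin (Real.pi / 2 - 0.1) :=
          Real.sin_le_sin_of_le_of_le_pi_div_two (by linarith) (by linarith) (by linarith)
        rw [Real.sin_pi_div_two_sub] at h6
        have h7 := Real.cos_bound (x := 0.1) (by rw [abs_of_pos] <;> norm_num)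
        rw [abs_le, abs_of_pos (by norm_num : (0:ℝ) < 0.1)] at h7
        have h8 := h7.2
        norm_num at h8
        norm_num at h6
        linarith
      · have h4 := F1 h3
        have h5 : dr x ≤ ‖x - pt (2 - d)‖ + (2 - 3 * d / 2) := by
          have e : ‖pt (2 - d) - pt (d / 2)‖ = 2 - 3 * d / 2 := by
            have : pt (2 - d) - pt (d / 2) = pt (2 - 3 * d / 2) := by
              unfold pt; push_cast; ring
            rw [this, norm_pt _ (by linarith)]
          rw [← dr_eq, ← e]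
          calc ‖x - pt (d / 2)‖ = ‖(x - pt (2 - d)) + (pt (2 - d) - pt (d / 2))‖ := by
                congr 1; ring
            _ ≤ _ := norm_add_le _ _
        have elam : lam = Real.pi / 3 + 2 * √3 - 2 * d := rfl
        apply ub3 hc0 (by linarith)
        linarith

theorem opp_main_pplus {x : ℂ} (hx : ‖x‖ ≤ 1) (hy : 0 ≤ x.im) {y : ℝ}
    (h1 : lam ≤ y) (h2 : y ≤ Real.pi - 0.2) :
    ‖x - conj (pt (2 - d))‖ ≤ d + 2 * Real.sin ((w x + y) / 2) ∧
      2 * Real.sin ((w x + y) / 2) ≤ d + ‖x - conj (pt (2 - d))‖ := by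
  have f := F0 hx hy
  have hl := lam_lt
  have hl' := lam_gt
  have hpi := pi_gt
  have hA' := A_lt
  have hd := d_gt
  have hd' := d_lt
  have him : 0 ≤ (pt (2 - d)).im := by rw [pt_im]; linarith
  constructor
  · apply lb_big _ (by linarith) (by linarith)
    apply norm_le_two' hx
    rw [norm_pt _ (by linarith)]; linarith
  · apply ub_big
    have := opp_c_ge hy him
    rw [pt_im] at this
    linarith

/-- the statement for two points of the same half -/
def Same (x : ℂ) (α : ℝ) (x' : ℂ) (α' : ℝ) : Prop :=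
  ‖x - x'‖ ≤ d + 2 * Real.sin (|α - α'| / 2) ∧ 2 * Real.sin (|α - α'| / 2) ≤ d + ‖x - x'‖

def Opp (x : ℂ) (α : ℝ) (x' : ℂ) (α' : ℝ) : Prop :=
  ‖x - conj x'‖ ≤ d + 2 * Real.sin ((α + α') / 2) ∧
    2 * Real.sin ((α + α') / 2) ≤ d + ‖x - conj x'‖

theorem Same.symm {x x' : ℂ} {α α' : ℝ} (h : Same x α x' α') : Same x' α' x α := by
  unfold Same at *
  rw [norm_sub_rev, abs_sub_comm]; exact h

theorem Opp.symm {x x' : ℂ} {α α' : ℝ} (h : Opp x α x' α') : Opp x' α' x α := by
  unfold Opp at *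
  rw [← opp_comm, add_comm α' α]; exact h

theorem norm_pt_sub (a b : ℝ) : ‖pt a - pt b‖ = |a - b| := by
  have : pt a - pt b = ((a - b : ℝ) : ℂ) * I := by unfold pt; push_cast; ring
  rw [this, norm_mul, Complex.norm_I, mul_one, Complex.norm_real, Real.norm_eq_abs]

theorem norm_pt_conj (a b : ℝ) : ‖pt a - conj (pt b)‖ = |a + b| := by
  have : pt a - conj (pt b) = ((a + b : ℝ) : ℂ) * I := by
    unfold pt; rw [map_mul, Complex.conj_ofReal, Complex.conj_I]; push_cast; ring
  rw [this, norm_mul, Complex.norm_I, mul_one, Complex.norm_real, Real.norm_eq_abs]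

theorem same_of_small {x x' : ℂ} {α α' : ℝ} (hc : ‖x - x'‖ ≤ d) (ht : |α - α'| ≤ 2 * A) :
    Same x α x' α' := by
  have := A_lt
  have := pi_gt
  exact ⟨lb_small hc (abs_nonneg _) (by linarith), ub1 (norm_nonneg _) (abs_nonneg _) ht⟩

theorem same_main_plus' {x : ℂ} (hx : ‖x‖ ≤ 1) (hy : 0 ≤ x.im) {y : ℝ}
    (h1 : Real.pi - 0.2 ≤ y) (h2 : y ≤ Real.pi) : Same x (w x) (pt (d / 2)) y := by
  have f := F0 hx hy
  have hl := lam_lt
  have hpi := pi_gt
  have e : |w x - y| = y - w x := by rw [abs_sub_comm, abs_of_nonneg (by linarith)]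
  unfold Same
  rw [e, dr_eq]
  exact same_main_plus hx hy h1 h2

theorem same_main_pplus' {x : ℂ} (hx : ‖x‖ ≤ 1) (hy : 0 ≤ x.im) {y : ℝ}
    (h1 : lam ≤ y) (h2 : y ≤ Real.pi - 0.2) : Same x (w x) (pt (2 - d)) y := by
  have f := F0 hx hy
  have e : |w x - y| = y - w x := by rw [abs_sub_comm, abs_of_nonneg (by linarith)]
  unfold Same
  rw [e]
  exact same_main_pplus hx hy h1 h2

theorem opp_main_plus' {x : ℂ} (hx : ‖x‖ ≤ 1) (hy : 0 ≤ x.im) {y : ℝ}
    (h1 : Real.pi - 0.2 ≤ y) (h2 : y ≤ Real.pi) : Opp x (w x) (pt (d / 2)) y := by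
  unfold Opp
  rw [dq_eq]
  exact opp_main_plus hx hy h1 h2

theorem same_T {x x' : ℂ} {α α' : ℝ} (h : T x α) (h' : T x' α') : Same x α x' α' := by
  have hl := lam_gt
  have hpi := pi_lt
  have hA := A_gt
  have hd := d_gt
  have hd' := d_lt
  cases h with
  | main x hx hy =>
    cases h' with
    | main x' hx' hy' => exact ⟨same_lb hx hy hx' hy', same_ub hx hy hx' hy'⟩
    | plus y h1 h2 => exact same_main_plus' hx hy h1 h2
    | pplus y h1 h2 => exact same_main_pplus' hx hy h1 h2
  | plus y h1 h2 =>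
    cases h' with
    | main x' hx' hy' => exact (same_main_plus' hx' hy' h1 h2).symm
    | plus y' h1' h2' =>
      apply same_of_small
      · rw [norm_pt_sub]; simp; linarith
      · rw [abs_le]; constructor <;> linarith
    | pplus y' h1' h2' =>
      apply same_of_small
      · rw [norm_pt_sub, abs_le]; constructor <;> linarith
      · rw [abs_le]; constructor <;> linarith
  | pplus y h1 h2 =>
    cases h' with
    | main x' hx' hy' => exact (same_main_pplus' hx' hy' h1 h2).symm
    | plus y' h1' h2' =>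
      apply same_of_small
      · rw [norm_pt_sub, abs_le]; constructor <;> linarith
      · rw [abs_le]; constructor <;> linarith
    | pplus y' h1' h2' =>
      apply same_of_small
      · rw [norm_pt_sub]; simp; linarith
      · rw [abs_le]; constructor <;> linarith

theorem opp_pts {a b : ℝ} {α α' : ℝ} (hab0 : 2 - d ≤ a + b) (hab : a + b ≤ d + 0.19)
    (h1 : 0.2 ≤ α + α') (h2 : α + α' ≤ 2 * Real.pi - 0.2) : Opp (pt a) α (pt b) α' := by
  have hd := d_lt
  unfold Opp
  rw [norm_pt_conj, abs_of_nonneg (by linarith)]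
  exact ⟨lb_tenth hab h1 h2, ub_big hab0⟩

theorem opp_T {x x' : ℂ} {α α' : ℝ} (h : T x α) (h' : T x' α') : Opp x α x' α' := by
  have hl := lam_gt
  have hpi := pi_gt
  have hA := A_gt
  have hd := d_gt
  have hd' := d_lt
  cases h with
  | main x hx hy =>
    cases h' with
    | main x' hx' hy' => exact ⟨opp_lb hx hy hx' hy', opp_ub hx hy hx' hy'⟩
    | plus y h1 h2 => exact opp_main_plus' hx hy h1 h2
    | pplus y h1 h2 => exact opp_main_pplus hx hy h1 h2
  | plus y h1 h2 =>
    cases h' with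
    | main x' hx' hy' => exact (opp_main_plus' hx' hy' h1 h2).symm
    | plus y' h1' h2' =>
      unfold Opp
      have e : d / 2 + d / 2 = d := by ring
      rw [norm_pt_conj, e, abs_of_nonneg (by linarith)]
      exact ⟨lb_small le_rfl (by linarith) (by linarith), ub_big (by linarith)⟩
    | pplus y' h1' h2' =>
      exact opp_pts (by linarith) (by linarith) (by linarith) (by linarith)
  | pplus y h1 h2 =>
    cases h' with
    | main x' hx' hy' => exact Opp.symm (opp_main_pplus hx' hy' h1 h2)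
    | plus y' h1' h2' =>
      exact opp_pts (by linarith) (by linarith) (by linarith) (by linarith)
    | pplus y' h1' h2' =>
      exact opp_pts (by linarith) (by linarith) (by linarith) (by linarith)

/-- Every angle is covered. -/
theorem exists_T {α : ℝ} (h0 : 0 ≤ α) (h1 : α ≤ Real.pi) : ∃ x, T x α := by
  have hl := lam_gt
  have hl' := lam_lt
  have hpi := pi_gt
  have hA := A_gt
  have hA' := A_lt
  have hd := d_gt
  have hd' := d_lt
  have hdd := dsq_gt
  have hdd' : d * d ≤ 1.3044 * 1.3044 :=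
    mul_le_mul d_lt.le d_lt.le (by linarith [d_gt]) (by norm_num)
  rcases le_or_gt (Real.pi - 0.2) α with h | h
  · exact ⟨_, T.plus α h h1⟩
  rcases le_or_gt lam α with h2 | h2
  · exact ⟨_, T.pplus α h2 h.le⟩
  rcases le_or_gt A α with h3 | h3
  · -- on the segment from `x_+` to the right
    set ρ := (lam - α) / 2 with hρ
    have hρ0 : 0 ≤ ρ := by rw [hρ]; linarith
    have hρ1 : ρ ≤ 0.598 := by rw [hρ]; linarith
    have hρ2 : ρ * ρ ≤ 0.598 * 0.598 := mul_le_mul hρ1 hρ1 hρ0 (by norm_num)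
    set x : ℂ := (ρ : ℂ) + pt (d / 2) with hx
    have hre : x.re = ρ := by rw [hx]; simp [pt_re]
    have him : x.im = d / 2 := by rw [hx]; simp [pt_im]
    have hn : ‖x‖ ≤ 1 := by
      apply le_of_sq _ (by norm_num)
      rw [norm_sq_coord, hre, him]
      nlinarith only [hρ2, hdd']
    have hda : da x ≤ d := by
      apply le_of_sq _ (by linarith)
      rw [da_sq, hre, him]
      nlinarith only [hρ2, hdd', hdd, hρ0, hρ1]
    have hdr : dr x = ρ := by
      rw [← dr_eq, hx]
      have : (ρ : ℂ) + pt (d / 2) - pt (d / 2) = (ρ : ℂ) := by ring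
      rw [this, Complex.norm_real, Real.norm_eq_abs, abs_of_nonneg hρ0]
    have hw : w x = α := by
      unfold w
      rw [if_pos hda, hdr]
      have e : lam - 2 * ρ = α := by rw [hρ]; ring
      rw [e]
      apply max_eq_left
      exact (min_le_left _ _).trans h3
    refine ⟨x, ?_⟩
    rw [← hw]
    exact T.main x hn (by rw [him]; linarith)
  · -- on the negative axis
    have hk := kap_pos
    set m := (A - α) / kap with hm
    have hm0 : 0 < m := div_pos (by linarith) hk
    have hm1 : m ≤ 2 - d := by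
      rw [hm, div_le_iff₀ hk, mul_comm, kap_mul]; linarith
    set x : ℂ := ((1 - d - m : ℝ) : ℂ) with hx
    have hre : x.re = 1 - d - m := by rw [hx, Complex.ofReal_re]
    have him : x.im = 0 := by rw [hx, Complex.ofReal_im]
    have hn : ‖x‖ ≤ 1 := by
      rw [hx, Complex.norm_real, Real.norm_eq_abs, abs_le]; constructor <;> linarith
    have hda : da x = d + m := by
      unfold da
      have : x - 1 = ((-(d + m) : ℝ) : ℂ) := by rw [hx]; push_cast; ring
      rw [this, Complex.norm_real, Real.norm_eq_abs, abs_neg, abs_of_nonneg (by linarith)]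
    have hdr : 2 - d ≤ dr x := by
      apply le_of_sq _ (dr_nonneg x)
      rw [dr_sq, hre, him]
      nlinarith only [hdd, hdd', hm0, hd, hd', sq_nonneg m, mul_pos hm0 (by linarith : 0 < d - 1)]
    have hw : w x = α := by
      unfold w
      rw [hda, if_neg (by linarith), if_neg (by linarith)]
      have e : d + m - d = m := by ring
      rw [e, hm, mul_div_cancel₀ _ hk.ne']
      ring
    refine ⟨x, ?_⟩
    rw [← hw]
    exact T.main x hn (by rw [him])

end H921GH
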