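import Mathlib

/-! General facts on the Gromov-Hausdorff distance and correspondences. -/

set_option autoImplicit false

namespace H921GH

open GromovHausdorff Metric Set

universe u v w

/-- A correspondence (given as a pair of surjections from a type) of distortion at most `2ε`
bounds the Gromov-Hausdorff distance by `ε`. -/
theorem ghDist_le_of_corr {X : Type u} {Y : Type v} {Z : Type w}
    [MetricSpace X] [CompactSpace X] [Nonempty X] [MetricSpace Y] [CompactSpace Y] [Nonempty Y]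
    (Φ : Z → X) (Ψ : Z → Y) (hΦ : Function.Surjective Φ) (hΨ : Function.Surjective Ψ)
    {ε : ℝ} (ε0 : 0 < ε)
    (H : ∀ p q : Z, |dist (Φ p) (Φ q) - dist (Ψ p) (Ψ q)| ≤ 2 * ε) : ghDist X Y ≤ ε := by
  have hZ : Nonempty Z := ⟨(hΦ (Classical.arbitrary X)).choose⟩
  let _ : MetricSpace (X ⊕ Y) := glueMetricApprox Φ Ψ ε ε0 H
  let Fl := @Sum.inl X Y
  let Fr := @Sum.inr X Y
  have Il : Isometry Fl := Isometry.of_dist_eq fun x y => rfl
  have Ir : Isometry Fr := Isometry.of_dist_eq fun x y => rfl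
  have h1 : ghDist X Y ≤ hausdorffDist (range Fl) (range Fr) := ghDist_le_hausdorffDist Il Ir
  have h2 : hausdorffDist (range Fl) (range Fr) ≤ ε := by
    refine hausdorffDist_le_of_mem_dist ε0.le ?_ ?_
    · rintro _ ⟨x, rfl⟩
      obtain ⟨z, rfl⟩ := hΦ x
      exact ⟨Fr (Ψ z), mem_range_self _, le_of_eq (glueDist_glued_points Φ Ψ ε z)⟩
    · rintro _ ⟨y, rfl⟩
      obtain ⟨z, rfl⟩ := hΨ y
      refine ⟨Fl (Φ z), mem_range_self _, ?_⟩
      rw [dist_comm]
      exact le_of_eq (glueDist_glued_points Φ Ψ ε z)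
  exact h1.trans h2

/-- If the Gromov-Hausdorff distance is smaller than `r` there is a map of distortion at most
`2r`. -/
theorem exists_map_of_ghDist_lt {X : Type u} {Y : Type v}
    [MetricSpace X] [CompactSpace X] [Nonempty X] [MetricSpace Y] [CompactSpace Y] [Nonempty Y]
    {r : ℝ} (h : ghDist X Y < r) :
    ∃ f : X → Y, ∀ x y : X, |dist x y - dist (f x) (f y)| ≤ 2 * r := by
  obtain ⟨Φ, Ψ, hΦ, hΨ, hd⟩ := ghDist_eq_hausdorffDist X Y
  rw [hd] at h
  have hb1 : Bornology.IsBounded (range Φ) := (isCompact_range hΦ.continuous).isBounded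
  have hb2 : Bornology.IsBounded (range Ψ) := (isCompact_range hΨ.continuous).isBounded
  have hfin : hausdorffEDist (range Φ) (range Ψ) ≠ ⊤ :=
    hausdorffEDist_ne_top_of_nonempty_of_bounded (range_nonempty _) (range_nonempty _) hb1 hb2
  have key : ∀ x : X, ∃ y : Y, dist (Φ x) (Ψ y) < r := by
    intro x
    obtain ⟨_, ⟨y, rfl⟩, hy⟩ := exists_dist_lt_of_hausdorffDist_lt (mem_range_self x) h hfin
    exact ⟨y, hy⟩
  choose f hf using key
  refine ⟨f, fun x y => ?_⟩
  rw [← hΦ.dist_eq x y, ← hΨ.dist_eq (f x) (f y)]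
  have h1 := hf x
  have h2 := hf y
  have t1 := dist_triangle4 (Φ x) (Ψ (f x)) (Ψ (f y)) (Φ y)
  have t2 := dist_triangle4 (Ψ (f x)) (Φ x) (Φ y) (Ψ (f y))
  rw [dist_comm (Ψ (f y)) (Φ y)] at t1
  rw [dist_comm (Ψ (f x)) (Φ x)] at t2
  rw [abs_le]
  constructor <;> linarith

end H921GH
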