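import Mathlib

/-! Lower bound: every map of the closed disc to the circle has distortion at least `2(1-s)`. -/

set_option autoImplicit false

namespace H921GH

open Complex

theorem norm_exp_sub_exp (α β : ℝ) :
    ‖exp (I * α) - exp (I * β)‖ = 2 * |Real.sin ((α - β) / 2)| := by
  have h : exp (I * α) - exp (I * β) = exp (I * β) * (exp (I * ((α - β : ℝ) : ℂ)) - 1) := by
    rw [mul_sub, ← exp_add, mul_one]
    congr 2
    push_cast
    ring
  rw [h, norm_mul, norm_exp_I_mul_ofReal, one_mul, norm_exp_I_mul_ofReal_sub_one,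
    Real.norm_eq_abs, abs_mul]
  norm_num

/-- The oriented angle from `a` to `b`. -/
noncomputable def ang (a b : ℂ) : ℝ := arg (b / a)

theorem ne_zero_of_norm_one {a : ℂ} (ha : ‖a‖ = 1) : a ≠ 0 := by
  rintro rfl
  simp at ha

theorem ang_spec {a b : ℂ} (ha : ‖a‖ = 1) (hb : ‖b‖ = 1) : a * exp (I * ang a b) = b := by
  have h0 := ne_zero_of_norm_one ha
  have h1 : ‖b / a‖ = 1 := by rw [norm_div, ha, hb, div_one]
  have h2 := norm_mul_exp_arg_mul_I (b / a)
  rw [h1, ofReal_one, one_mul] at h2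
  rw [ang, mul_comm I, h2, mul_div_cancel₀ _ h0]

theorem ang_chord {a b : ℂ} (ha : ‖a‖ = 1) (hb : ‖b‖ = 1) :
    ‖a - b‖ = 2 * |Real.sin (ang a b / 2)| := by
  have h := ang_spec ha hb
  have h2 : a - b = a * (exp (I * (0:ℝ)) - exp (I * ang a b)) := by
    rw [mul_sub, h]
    simp
  rw [h2, norm_mul, ha, one_mul, norm_exp_sub_exp]
  congr 1
  rw [zero_sub, neg_div, Real.sin_neg, abs_neg]

theorem ang_bound {a b : ℂ} (ha : ‖a‖ = 1) (hb : ‖b‖ = 1) (h : ‖a - b‖ < √3) :
    |ang a b| < 2 * Real.pi / 3 := by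
  by_contra hcon
  push Not at hcon
  have hpi : |ang a b| ≤ Real.pi := abs_arg_le_pi _
  have h1 := ang_chord ha hb
  have hpos := Real.pi_pos
  have h2 : |Real.sin (ang a b / 2)| = Real.sin (|ang a b| / 2) := by
    rcases le_or_gt 0 (ang a b) with h0 | h0
    · rw [abs_of_nonneg h0] at hpi ⊢
      rw [abs_of_nonneg]
      exact Real.sin_nonneg_of_nonneg_of_le_pi (by linarith) (by linarith)
    · rw [abs_of_neg h0] at hpi ⊢
      rw [neg_div, Real.sin_neg, abs_of_nonpos]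
      exact Real.sin_nonpos_of_nonpos_of_neg_pi_le (by linarith) (by linarith)
  have h3 : Real.sin (Real.pi / 3) ≤ Real.sin (|ang a b| / 2) :=
    Real.sin_le_sin_of_le_of_le_pi_div_two (by linarith) (by linarith) (by linarith)
  rw [Real.sin_pi_div_three] at h3
  rw [h1, h2] at h
  linarith

theorem ang_add {a b c : ℂ} (ha : ‖a‖ = 1) (hb : ‖b‖ = 1) (hc : ‖c‖ = 1)
    (h1 : ‖a - b‖ < √3) (h2 : ‖b - c‖ < √3) (h3 : ‖a - c‖ < √3) :
    ang a b + ang b c = ang a c := by
  have b1 := ang_bound ha hb h1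
  have b2 := ang_bound hb hc h2
  have b3 := ang_bound ha hc h3
  have ha0 := ne_zero_of_norm_one ha
  have hb0 := ne_zero_of_norm_one hb
  have hc0 := ne_zero_of_norm_one hc
  have h : ((ang a b + ang b c : ℝ) : Real.Angle) = ((ang a c : ℝ) : Real.Angle) := by
    rw [Real.Angle.coe_add]
    unfold ang
    rw [arg_div_coe_angle hb0 ha0, arg_div_coe_angle hc0 hb0, arg_div_coe_angle hc0 ha0]
    abel
  obtain ⟨k, hk⟩ := Real.Angle.angle_eq_iff_two_pi_dvd_sub.1 h
  rw [abs_lt] at b1 b2 b3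
  have hpos := Real.pi_pos
  have hk1 : (k : ℝ) < 1 := by
    by_contra hcon
    push Not at hcon
    nlinarith
  have hk2 : (-1 : ℝ) < k := by
    by_contra hcon
    push Not at hcon
    nlinarith
  have hk0 : k = 0 := by
    have a1 : k < 1 := by exact_mod_cast hk1
    have a2 : -1 < k := by exact_mod_cast hk2
    omega
  rw [hk0] at hk
  simp at hk
  linarith

theorem ang_self {a : ℂ} (ha : ‖a‖ = 1) : ang a a = 0 := by
  rw [ang, div_self (ne_zero_of_norm_one ha), arg_one]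

theorem wind_eq (u v : ℕ → ℂ) (M : ℕ) (hu : ∀ i, ‖u i‖ = 1) (hv : ∀ i, ‖v i‖ = 1)
    (h1 : ∀ i, ‖u i - u (i + 1)‖ < √3) (h1' : ∀ i, ‖v i - v (i + 1)‖ < √3)
    (h2 : ∀ i, ‖u i - v i‖ < √3) (h3 : ∀ i, ‖u i - v (i + 1)‖ < √3)
    (hper : u M = u 0) (hper' : v M = v 0) :
    ∑ i ∈ Finset.range M, ang (u i) (u (i + 1)) = ∑ i ∈ Finset.range M, ang (v i) (v (i + 1)) := by
  have key : ∀ i, ang (u i) (u (i + 1)) - ang (v i) (v (i + 1))
      = ang (u i) (v i) - ang (u (i + 1)) (v (i + 1)) := by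
    intro i
    have e1 := ang_add (hu i) (hu (i + 1)) (hv (i + 1)) (h1 i) (h2 (i + 1)) (h3 i)
    have e2 := ang_add (hu i) (hv i) (hv (i + 1)) (h2 i) (h1' i) (h3 i)
    linarith
  rw [← sub_eq_zero, ← Finset.sum_sub_distrib, Finset.sum_congr rfl (fun i _ => key i),
    Finset.sum_range_sub', hper, hper', sub_self]

theorem core_ineq {F1 F2 u : ℝ} (h1 : 0 < F1) (h2 : 0 < F2) (h12 : F1 + F2 < 2 * Real.pi / 3)
    (hu : 0 < u) (hF1 : u ≤ 2 * |Real.sin (F1 / 2)|) (hF2 : u ≤ 2 * |Real.sin (F2 / 2)|)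
    (hF : 2 * |Real.sin ((F1 + F2) / 2)| ≤ 2 - u) :
    4 * (u / 2) ^ 3 + 4 * (u / 2) ^ 2 + u / 2 ≤ 1 := by
  have hpos := Real.pi_pos
  -- the minimum
  obtain ⟨m, hm0, hm1, hm2⟩ : ∃ m : ℝ, 0 < m ∧ 2 * m ≤ (F1 + F2) / 2 ∧ u ≤ 2 * Real.sin m := by
    have a1 : |Real.sin (F1 / 2)| = Real.sin (F1 / 2) :=
      abs_of_nonneg (Real.sin_nonneg_of_nonneg_of_le_pi (by linarith) (by linarith))
    have a2 : |Real.sin (F2 / 2)| = Real.sin (F2 / 2) :=
      abs_of_nonneg (Real.sin_nonneg_of_nonneg_of_le_pi (by linarith) (by linarith))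
    rw [a1] at hF1
    rw [a2] at hF2
    rcases le_total F1 F2 with h | h
    · exact ⟨F1 / 2, by linarith, by linarith, hF1⟩
    · exact ⟨F2 / 2, by linarith, by linarith, hF2⟩
  have a3 : |Real.sin ((F1 + F2) / 2)| = Real.sin ((F1 + F2) / 2) :=
    abs_of_nonneg (Real.sin_nonneg_of_nonneg_of_le_pi (by linarith) (by linarith))
  rw [a3] at hF
  have h4 : Real.sin (2 * m) ≤ Real.sin ((F1 + F2) / 2) :=
    Real.sin_le_sin_of_le_of_le_pi_div_two (by linarith) (by linarith) hm1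
  have h5 : Real.sin m ≤ 1 / 2 := by
    rw [← Real.sin_pi_div_six]
    exact Real.sin_le_sin_of_le_of_le_pi_div_two (by linarith) (by linarith) (by linarith)
  rw [Real.sin_two_mul] at h4
  set X := Real.sin m with hX
  set C := Real.cos m with hC
  have hsc : X ^ 2 + C ^ 2 = 1 := Real.sin_sq_add_cos_sq m
  have hCpos : 0 ≤ C := Real.cos_nonneg_of_neg_pi_div_two_le_of_le (by linarith) (by linarith)
  set x := u / 2 with hx
  have hx0 : 0 < x := by positivity
  have hxX : x ≤ X := by linarith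
  have h6 : 2 * X * C ≤ 1 - x := by linarith
  have hx1 : x ≤ 1 / 2 := by linarith
  have hX0 : 0 ≤ X := by linarith
  have hXC : 0 ≤ 2 * X * C := by positivity
  have h7 : (2 * X * C) ^ 2 ≤ (1 - x) ^ 2 := by
    apply pow_le_pow_left₀ hXC h6
  have h8 : (2 * X * C) ^ 2 = 4 * X ^ 2 * (1 - X ^ 2) := by
    have : C ^ 2 = 1 - X ^ 2 := by linarith
    rw [mul_pow, mul_pow, this]; ring
  have h9 : 4 * x ^ 2 * (1 - x ^ 2) ≤ 4 * X ^ 2 * (1 - X ^ 2) := by
    have hxx : x ^ 2 ≤ X ^ 2 := pow_le_pow_left₀ hx0.le hxX 2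
    have hX2 : X ^ 2 ≤ 1 / 4 := by nlinarith
    nlinarith
  have h10 : 4 * x ^ 2 * (1 - x ^ 2) ≤ (1 - x) ^ 2 := by linarith
  have h11 : 0 < 1 - x := by linarith
  have h12' : (1 - x) * (4 * x ^ 2 * (1 + x) - (1 - x)) ≤ 0 := by nlinarith
  have h13 : 4 * x ^ 2 * (1 + x) - (1 - x) ≤ 0 := by
    by_contra hcon
    push Not at hcon
    have := mul_pos h11 hcon
    linarith
  nlinarith

theorem final_ineq {a a' b b' u : ℝ} (hu : 0 < u)
    (hab : 0 < b - a) (hab' : b' - a' < 0)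
    (h1 : u ≤ 2 * |Real.sin ((b - a) / 2)|) (h2 : u ≤ 2 * |Real.sin ((b' - a') / 2)|)
    (h3 : u ≤ 2 * |Real.sin ((b - a') / 2)|)
    (ha : |a' - a| < 2 * Real.pi / 3) (ha2 : 2 * |Real.sin ((a' - a) / 2)| ≤ 2 - u)
    (hb : |b' - b| < 2 * Real.pi / 3) (hb2 : 2 * |Real.sin ((b' - b) / 2)| ≤ 2 - u) :
    4 * (u / 2) ^ 3 + 4 * (u / 2) ^ 2 + u / 2 ≤ 1 := by
  rw [abs_lt] at ha hb
  have sneg : ∀ x y : ℝ, |Real.sin ((x - y) / 2)| = |Real.sin ((y - x) / 2)| := by
    intro x y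
    rw [← abs_neg, ← Real.sin_neg]
    congr 2; ring
  rcases lt_trichotomy 0 (b - a') with h | h | h
  · refine core_ineq (F1 := b - a') (F2 := a' - b') h (by linarith) (by linarith) hu h3 ?_ ?_
    · rw [sneg]; exact h2
    · have e : b - a' + (a' - b') = b - b' := by ring
      rw [e, sneg]; exact hb2
  · rw [← h] at h3
    simp at h3
    linarith
  · refine core_ineq (F1 := a' - b) (F2 := b - a) (by linarith) hab (by linarith) hu ?_ h1 ?_
    · rw [sneg]; exact h3
    · have e : a' - b + (b - a) = a' - a := by ring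
      rw [e]; exact ha2

/-- The grid point on the ray of argument `π i / K` and of radius `j / K`. -/
noncomputable def grid (K j i : ℕ) : ℂ := ((j / K : ℝ) : ℂ) * exp (I * ((Real.pi * i / K : ℝ) : ℂ))

theorem norm_grid (K j i : ℕ) : ‖grid K j i‖ = (j : ℝ) / K := by
  rw [grid, norm_mul, norm_exp_I_mul_ofReal, mul_one, norm_real, Real.norm_eq_abs, abs_of_nonneg]
  positivity

theorem grid_zero (K i : ℕ) : grid K 0 i = 0 := by simp [grid]

theorem grid_period (K j : ℕ) (hK : 0 < K) : grid K j (2 * K) = grid K j 0 := by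
  unfold grid
  congr 1
  have hK0 : (K : ℝ) ≠ 0 := by positivity
  have e : Real.pi * ((2 * K : ℕ) : ℝ) / K = 2 * Real.pi := by
    push_cast; field_simp
  rw [e]
  have : I * ((2 * Real.pi : ℝ) : ℂ) = 2 * Real.pi * I := by push_cast; ring
  rw [this, exp_two_pi_mul_I]
  simp

theorem grid_antipode (K i : ℕ) (hK : 0 < K) : grid K K (i + K) = - grid K K i := by
  unfold grid
  have hK0 : (K : ℝ) ≠ 0 := by positivity
  have e : Real.pi * ((i + K : ℕ) : ℝ) / K = Real.pi * i / K + Real.pi := by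
    push_cast; field_simp
  rw [e]
  have : I * ((Real.pi * i / K + Real.pi : ℝ) : ℂ)
      = I * ((Real.pi * i / K : ℝ) : ℂ) + Real.pi * I := by push_cast; ring
  rw [this, exp_add, exp_pi_mul_I]
  ring

theorem grid_dist_angle (K j i : ℕ) (hK : 0 < K) (hj : j ≤ K) :
    ‖grid K j i - grid K j (i + 1)‖ ≤ Real.pi / K := by
  unfold grid
  rw [← mul_sub, norm_mul, norm_exp_sub_exp, norm_real, Real.norm_eq_abs]
  have hK0 : (0 : ℝ) < K := by positivity
  have h1 : |(j : ℝ) / K| ≤ 1 := by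
    rw [abs_of_nonneg (by positivity), div_le_one hK0]
    exact_mod_cast hj
  have e : (Real.pi * (i : ℝ) / K - Real.pi * ((i + 1 : ℕ) : ℝ) / K) / 2 = - (Real.pi / K / 2) := by
    push_cast; field_simp; ring
  rw [e]
  have h2 : |Real.sin (-(Real.pi / K / 2))| ≤ Real.pi / K / 2 := by
    have h3 : 0 ≤ Real.pi / K / 2 := by positivity
    calc |Real.sin (-(Real.pi / K / 2))| ≤ |-(Real.pi / K / 2)| := Real.abs_sin_le_abs
      _ = Real.pi / K / 2 := by rw [abs_neg, abs_of_nonneg h3]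
  have h3 : 0 ≤ |Real.sin (-(Real.pi / K / 2))| := abs_nonneg _
  have h4 : 0 ≤ |(j : ℝ) / K| := abs_nonneg _
  nlinarith

theorem grid_dist_rad (K j i : ℕ) (hK : 0 < K) :
    ‖grid K j i - grid K (j + 1) i‖ ≤ 1 / K := by
  unfold grid
  rw [← sub_mul, norm_mul, norm_exp_I_mul_ofReal, mul_one, ← ofReal_sub, norm_real,
    Real.norm_eq_abs]
  have hK0 : (0 : ℝ) < K := by positivity
  have e : (j : ℝ) / K - ((j + 1 : ℕ) : ℝ) / K = -(1 / K) := by
    push_cast; field_simp; ring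
  rw [e, abs_neg, abs_of_nonneg (by positivity)]

theorem grid_dist_diag (K j i : ℕ) (hK : 0 < K) (hj : j + 1 ≤ K) :
    ‖grid K j i - grid K (j + 1) (i + 1)‖ ≤ (Real.pi + 1) / K := by
  have h1 := grid_dist_angle K j i hK (by omega)
  have h2 := grid_dist_rad K j (i + 1) hK
  calc ‖grid K j i - grid K (j + 1) (i + 1)‖
      = ‖(grid K j i - grid K j (i + 1)) + (grid K j (i + 1) - grid K (j + 1) (i + 1))‖ := by
        congr 1; ring
    _ ≤ ‖grid K j i - grid K j (i + 1)‖ + ‖grid K j (i + 1) - grid K (j + 1) (i + 1)‖ :=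
        norm_add_le _ _
    _ ≤ Real.pi / K + 1 / K := add_le_add h1 h2
    _ = (Real.pi + 1) / K := by ring

theorem sign_change (D : ℕ → ℝ) (n : ℕ) (h0 : 0 < D 0) (hn : D n < 0)
    (hne : ∀ i, i ≤ n → D i ≠ 0) : ∃ i, i < n ∧ 0 < D i ∧ D (i + 1) < 0 := by
  by_contra hcon
  push Not at hcon
  have : ∀ i, i ≤ n → 0 < D i := by
    intro i
    induction i with
    | zero => intro _; exact h0
    | succ k ih =>
      intro hk
      have h1 := ih (by omega)
      have h2 := hcon k (by omega) h1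
      exact lt_of_le_of_ne h2 (hne (k + 1) hk).symm
  exact absurd (this n le_rfl) (not_lt.2 hn.le)

/-- The lower bound. -/
theorem lower_aux (f : ℂ → ℂ) (δ : ℝ) (hf : ∀ z, ‖z‖ ≤ 1 → ‖f z‖ = 1)
    (hd : ∀ z w, ‖z‖ ≤ 1 → ‖w‖ ≤ 1 → |‖z - w‖ - ‖f z - f w‖| ≤ δ)
    (K : ℕ) (hK : 0 < K) (hδ : δ + (Real.pi + 1) / K < √3) (hδ2 : δ + (Real.pi + 1) / K < 2) :
    4 * ((2 - (δ + (Real.pi + 1) / K)) / 2) ^ 3 + 4 * ((2 - (δ + (Real.pi + 1) / K)) / 2) ^ 2
      + (2 - (δ + (Real.pi + 1) / K)) / 2 ≤ 1 := by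
  have hK0 : (0 : ℝ) < K := by positivity
  have hpi := Real.pi_pos
  set ε := (Real.pi + 1) / K with hε
  have hε0 : 0 < ε := by positivity
  have hεpi : Real.pi / K ≤ ε := by
    rw [hε]; gcongr; linarith
  have hε1 : 1 / K ≤ ε := by
    rw [hε]; gcongr; linarith
  have hgn : ∀ j i, j ≤ K → ‖grid K j i‖ ≤ 1 := by
    intro j i hj
    rw [norm_grid, div_le_one hK0]
    exact_mod_cast hj
  -- values
  have close : ∀ z w, ‖z‖ ≤ 1 → ‖w‖ ≤ 1 → ‖z - w‖ ≤ ε → ‖f z - f w‖ ≤ δ + ε := by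
    intro z w hz hw hzw
    have := hd z w hz hw
    rw [abs_le] at this
    linarith [this.1]
  have far : ∀ z w, ‖z‖ ≤ 1 → ‖w‖ ≤ 1 → ‖z - w‖ - δ ≤ ‖f z - f w‖ := by
    intro z w hz hw
    have := hd z w hz hw
    rw [abs_le] at this
    linarith [this.2]
  -- winding numbers
  have wind : ∀ j, j ≤ K →
      ∑ i ∈ Finset.range (2 * K), ang (f (grid K j i)) (f (grid K j (i + 1))) = 0 := by
    intro j
    induction j with
    | zero =>
      intro _
      apply Finset.sum_eq_zero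
      intro i _
      rw [grid_zero, grid_zero]
      exact ang_self (hf 0 (by simp))
    | succ k ih =>
      intro hk
      rw [← ih (by omega)]
      symm
      apply wind_eq (fun i => f (grid K k i)) (fun i => f (grid K (k + 1) i)) (2 * K)
      · intro i; exact hf _ (hgn _ _ (by omega))
      · intro i; exact hf _ (hgn _ _ hk)
      · intro i
        refine lt_of_le_of_lt (close _ _ (hgn _ _ (by omega)) (hgn _ _ (by omega)) ?_) hδ
        exact (grid_dist_angle K k i hK (by omega)).trans hεpi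
      · intro i
        refine lt_of_le_of_lt (close _ _ (hgn _ _ hk) (hgn _ _ hk) ?_) hδ
        exact (grid_dist_angle K (k + 1) i hK hk).trans hεpi
      · intro i
        refine lt_of_le_of_lt (close _ _ (hgn _ _ (by omega)) (hgn _ _ hk) ?_) hδ
        exact (grid_dist_rad K k i hK).trans hε1
      · intro i
        refine lt_of_le_of_lt (close _ _ (hgn _ _ (by omega)) (hgn _ _ hk) ?_) hδ
        exact grid_dist_diag K k i hK hk
      · show f (grid K k (2 * K)) = f (grid K k 0)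
        rw [grid_period K k hK]
      · show f (grid K (k + 1) (2 * K)) = f (grid K (k + 1) 0)
        rw [grid_period K (k + 1) hK]
  -- lift on the outer circle
  set P : ℕ → ℂ := fun i => grid K K i with hP
  have hPn : ∀ i, ‖P i‖ ≤ 1 := fun i => hgn K i le_rfl
  set θ : ℕ → ℝ := fun i => ∑ k ∈ Finset.range i, ang (f (P k)) (f (P (k + 1))) with hθ
  have hlift : ∀ i, f (P i) = f (P 0) * exp (I * θ i) := by
    intro i
    induction i with
    | zero => simp [hθ]
    | succ k ih =>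
      have e1 : θ (k + 1) = θ k + ang (f (P k)) (f (P (k + 1))) := by
        simp only [hθ]; rw [Finset.sum_range_succ]
      rw [e1, ofReal_add, mul_add, exp_add, ← mul_assoc, ← ih]
      exact (ang_spec (hf _ (hPn _)) (hf _ (hPn _))).symm
  have hnorm : ∀ i j, ‖f (P i) - f (P j)‖ = 2 * |Real.sin ((θ i - θ j) / 2)| := by
    intro i j
    rw [hlift i, hlift j, ← mul_sub, norm_mul, hf _ (hPn 0), one_mul, norm_exp_sub_exp]
  have hθ2 : θ (2 * K) = 0 := wind K le_rfl
  have hθ0 : θ 0 = 0 := by simp [hθ]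
  have hanti : ∀ i, ‖P (i + K) - P i‖ = 2 := by
    intro i
    show ‖grid K K (i + K) - grid K K i‖ = 2
    rw [grid_antipode K i hK]
    have : -grid K K i - grid K K i = -(2 * grid K K i) := by ring
    rw [this, norm_neg, norm_mul, norm_grid, div_self hK0.ne']
    simp
  have hstep : ∀ i, ‖P i - P (i + 1)‖ ≤ ε := fun i =>
    (grid_dist_angle K K i hK le_rfl).trans hεpi
  have hstep2 : ∀ i, |θ (i + 1) - θ i| < 2 * Real.pi / 3 := by
    intro i
    have e1 : θ (i + 1) - θ i = ang (f (P i)) (f (P (i + 1))) := by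
      simp only [hθ]; rw [Finset.sum_range_succ]; ring
    rw [e1]
    exact ang_bound (hf _ (hPn _)) (hf _ (hPn _))
      (lt_of_le_of_lt (close _ _ (hPn _) (hPn _) (hstep i)) hδ)
  have hstep3 : ∀ i, 2 * |Real.sin ((θ (i + 1) - θ i) / 2)| ≤ 2 - (2 - (δ + ε)) := by
    intro i
    rw [← hnorm, norm_sub_rev]
    have := close _ _ (hPn i) (hPn (i + 1)) (hstep i)
    linarith
  have hD1 : ∀ i, 2 - (δ + ε) ≤ 2 * |Real.sin ((θ (i + K) - θ i) / 2)| := by
    intro i
    rw [← hnorm]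
    have := far _ _ (hPn (i + K)) (hPn i)
    rw [hanti] at this
    linarith
  have hD2 : ∀ i, 2 - (δ + ε) ≤ 2 * |Real.sin ((θ (i + K) - θ (i + 1)) / 2)| := by
    intro i
    rw [← hnorm]
    have h1 := far _ _ (hPn (i + K)) (hPn (i + 1))
    have h2 : (2 : ℝ) ≤ ‖P (i + K) - P (i + 1)‖ + ε := by
      calc (2 : ℝ) = ‖P (i + K) - P i‖ := (hanti i).symm
        _ = ‖(P (i + K) - P (i + 1)) + (P (i + 1) - P i)‖ := by congr 1; ring
        _ ≤ ‖P (i + K) - P (i + 1)‖ + ‖P (i + 1) - P i‖ := norm_add_le _ _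
        _ ≤ ‖P (i + K) - P (i + 1)‖ + ε := by
            have := hstep i
            rw [norm_sub_rev] at this
            linarith
    linarith
  have hD3 : ∀ i, 2 - (δ + ε) ≤ 2 * |Real.sin ((θ i - θ (i + 1 + K)) / 2)| := by
    intro i
    rw [← hnorm]
    have h1 := far _ _ (hPn i) (hPn (i + 1 + K))
    have h2 : (2 : ℝ) ≤ ‖P i - P (i + 1 + K)‖ + ε := by
      calc (2 : ℝ) = ‖P (i + 1 + K) - P (i + 1)‖ := (hanti (i + 1)).symm
        _ = ‖P (i + 1) - P (i + 1 + K)‖ := norm_sub_rev _ _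
        _ = ‖(P i - P (i + 1 + K)) + (P (i + 1) - P i)‖ := by congr 1; ring
        _ ≤ ‖P i - P (i + 1 + K)‖ + ‖P (i + 1) - P i‖ := norm_add_le _ _
        _ ≤ ‖P i - P (i + 1 + K)‖ + ε := by
            have := hstep i
            rw [norm_sub_rev] at this
            linarith
    linarith
  have hu : 0 < 2 - (δ + ε) := by linarith
  have hne : ∀ i, θ (i + K) - θ i ≠ 0 := by
    intro i h
    have := hD1 i
    rw [h] at this
    simp at this
    linarith
  have hDK : θ (K + K) - θ K = -(θ (0 + K) - θ 0) := by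
    have : K + K = 2 * K := by ring
    rw [this, hθ2, hθ0, zero_add]; ring
  rcases lt_or_gt_of_ne (hne 0) with h | h
  · -- negative at the beginning: exchange the roles
    obtain ⟨i, _, h1, h2⟩ := sign_change (fun i => θ i - θ (i + K)) K
      (by show 0 < θ 0 - θ (0 + K); linarith)
      (by show θ K - θ (K + K) < 0; linarith) (fun i _ => by
        intro h; exact hne i (by linarith))
    have h1' : 0 < θ i - θ (i + K) := h1
    have h2' : θ (i + 1) - θ (i + 1 + K) < 0 := h2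
    have sneg : ∀ x y : ℝ, |Real.sin ((x - y) / 2)| = |Real.sin ((y - x) / 2)| := by
      intro x y
      rw [← abs_neg, ← Real.sin_neg]
      congr 2; ring
    refine final_ineq (a := θ (i + K)) (a' := θ (i + 1 + K)) (b := θ i) (b' := θ (i + 1)) hu h1' h2'
      ?_ ?_ (hD3 i) ?_ ?_ (hstep2 i) (hstep3 i)
    · rw [sneg]; exact hD1 i
    · rw [sneg]; exact hD1 (i + 1)
    · have := hstep2 (i + K)
      rw [show i + 1 + K = i + K + 1 by ring]
      exact this
    · have := hstep3 (i + K)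
      rw [show i + 1 + K = i + K + 1 by ring]
      exact this
  · obtain ⟨i, _, h1, h2⟩ := sign_change (fun i => θ (i + K) - θ i) K h
      (by show θ (K + K) - θ K < 0; linarith) (fun i _ => hne i)
    have h1' : 0 < θ (i + K) - θ i := h1
    have h2' : θ (i + 1 + K) - θ (i + 1) < 0 := h2
    refine final_ineq (a := θ i) (a' := θ (i + 1)) (b := θ (i + K)) (b' := θ (i + 1 + K)) hu h1' h2'
      (hD1 i) (hD1 (i + 1)) (hD2 i) (hstep2 i) (hstep3 i) ?_ ?_
    · have := hstep2 (i + K)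
      rw [show i + 1 + K = i + K + 1 by ring]
      exact this
    · have := hstep3 (i + K)
      rw [show i + 1 + K = i + K + 1 by ring]
      exact this

/-- Every map of the closed unit disc to the unit circle has distortion at least `2 (1 - s)`. -/
theorem lower (s : ℝ) (hs0 : 0 < s) (hs : 4 * s ^ 3 + 4 * s ^ 2 + s = 1)
    (f : ℂ → ℂ) (δ : ℝ) (hf : ∀ z, ‖z‖ ≤ 1 → ‖f z‖ = 1)
    (hd : ∀ z w, ‖z‖ ≤ 1 → ‖w‖ ≤ 1 → |‖z - w‖ - ‖f z - f w‖| ≤ δ) : 2 * (1 - s) ≤ δ := by
  by_contra hcon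
  push Not at hcon
  have hs1 : 1 / 4 < s := by
    by_contra h
    push Not at h
    nlinarith [mul_nonneg hs0.le hs0.le, mul_nonneg (mul_nonneg hs0.le hs0.le) hs0.le]
  have h3 : (1.7 : ℝ) < √3 := by
    rw [Real.lt_sqrt (by norm_num)]; norm_num
  have h32 : √3 < 2 := by
    rw [Real.sqrt_lt' (by norm_num)]; norm_num
  have hs2 : 0.3 < s := by
    by_contra h
    push Not at h
    nlinarith [mul_nonneg hs0.le hs0.le, mul_nonneg (mul_nonneg hs0.le hs0.le) hs0.le]
  have hgap : 0 < 2 * (1 - s) - δ := by linarith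
  obtain ⟨K, hK⟩ := exists_nat_gt ((Real.pi + 1) / (2 * (1 - s) - δ))
  have hpi := Real.pi_pos
  have hK0 : (0 : ℝ) < K := lt_trans (by positivity) hK
  have hK0' : 0 < K := by exact_mod_cast hK0
  have hε : (Real.pi + 1) / K < 2 * (1 - s) - δ := by
    rw [div_lt_iff₀ hgap] at hK
    rw [div_lt_iff₀ hK0]
    linarith
  have h := lower_aux f δ hf hd K hK0' (by linarith) (by linarith)
  set x := (2 - (δ + (Real.pi + 1) / K)) / 2 with hx
  have hxs : s < x := by rw [hx]; linarith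
  have hmono : 4 * s ^ 3 + 4 * s ^ 2 + s < 4 * x ^ 3 + 4 * x ^ 2 + x := by
    have h1 : s ^ 3 < x ^ 3 := pow_lt_pow_left₀ hxs hs0.le (by norm_num)
    have h2 : s ^ 2 < x ^ 2 := pow_lt_pow_left₀ hxs hs0.le (by norm_num)
    linarith
  linarith

end H921GH
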