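import Mathlib
import Pool.Agent.H921GH.GH
import Pool.Agent.H921GH.Lower
import Pool.Agent.H921GH.Cover

/-! The Gromov-Hausdorff distance between the closed unit disc and the unit circle. -/

set_option autoImplicit false

namespace H921GH

open Complex ComplexConjugate Metric GromovHausdorff

/-- The correspondence. -/
def Z : Type := {p : ℂ × ℝ // T p.1 p.2 ∨ T (conj p.1) (-p.2)}

theorem Z_norm (p : Z) : ‖p.1.1‖ ≤ 1 := by
  rcases p.2 with h | h
  · exact (T_facts h).1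
  · have := (T_facts h).1
    rwa [Complex.norm_conj] at this

theorem abs_sin_half {t : ℝ} (h : |t| ≤ 2 * Real.pi) : |Real.sin (t / 2)| = Real.sin (|t| / 2) := by
  rcases le_total 0 t with h0 | h0
  · rw [abs_of_nonneg h0] at *
    exact abs_of_nonneg (sin_nonneg_half h0 h)
  · rw [abs_of_nonpos h0] at *
    rw [neg_div, Real.sin_neg, abs_of_nonpos]
    have := sin_nonneg_half (t := -t) (by linarith) h
    rw [neg_div, Real.sin_neg] at this
    linarith

theorem key_same {x x' : ℂ} {α α' : ℝ} (h : T x α) (h' : T x' α') :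
    |‖x - x'‖ - (2 * |Real.sin ((α - α') / 2)|)| ≤ d := by
  obtain ⟨_, _, a1, a2⟩ := T_facts h
  obtain ⟨_, _, b1, b2⟩ := T_facts h'
  have hpi := pi_gt
  obtain ⟨k1, k2⟩ := same_T h h'
  rw [abs_sin_half (by rw [abs_le]; constructor <;> linarith), abs_le]
  constructor <;> linarith

theorem key_opp {x x' : ℂ} {α α' : ℝ} (h : T x α) (h' : T x' α') :
    |‖x - conj x'‖ - (2 * |Real.sin ((α + α') / 2)|)| ≤ d := by
  obtain ⟨_, _, a1, a2⟩ := T_facts h
  obtain ⟨_, _, b1, b2⟩ := T_facts h'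
  have hpi := pi_gt
  obtain ⟨k1, k2⟩ := opp_T h h'
  rw [abs_sin_half (by rw [abs_le]; constructor <;> linarith), abs_of_nonneg (by linarith : 0 ≤ α + α'),
    abs_le]
  constructor <;> linarith

theorem key (p q : Z) :
    |‖p.1.1 - q.1.1‖ - (2 * |Real.sin ((p.1.2 - q.1.2) / 2)|)| ≤ d := by
  rcases p.2 with h | h <;> rcases q.2 with h' | h'
  · exact key_same h h'
  · have := key_opp h h'
    rw [Complex.conj_conj] at this
    have e : p.1.2 + -q.1.2 = p.1.2 - q.1.2 := by ring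
    rwa [e] at this
  · have := key_opp h' h
    rw [Complex.conj_conj] at this
    have e : q.1.2 + -p.1.2 = -(p.1.2 - q.1.2) := by ring
    rwa [e, neg_div, Real.sin_neg, abs_neg, norm_sub_rev] at this
  · have := key_same h h'
    have e : -p.1.2 - -q.1.2 = -(p.1.2 - q.1.2) := by ring
    rw [e, neg_div, Real.sin_neg, abs_neg, ← map_sub, Complex.norm_conj] at this
    exact this

instance : Nonempty (sphere (0 : ℂ) 1) := ⟨⟨1, by simp⟩⟩

noncomputable def Phi (p : Z) : closedBall (0 : ℂ) 1 := ⟨p.1.1, by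
  rw [mem_closedBall, dist_zero_right]; exact Z_norm p⟩

noncomputable def Psi (p : Z) : sphere (0 : ℂ) 1 := ⟨exp (I * p.1.2), by
  rw [mem_sphere, dist_zero_right]; exact norm_exp_I_mul_ofReal _⟩

theorem Phi_surj : Function.Surjective Phi := by
  rintro ⟨x, hx⟩
  rw [mem_closedBall, dist_zero_right] at hx
  rcases le_total 0 x.im with h | h
  · exact ⟨⟨(x, w x), Or.inl (T.main x hx h)⟩, rfl⟩
  · have h1 : ‖conj x‖ ≤ 1 := by rwa [Complex.norm_conj]
    have h2 : 0 ≤ (conj x).im := by rw [Complex.conj_im]; linarith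
    refine ⟨⟨(x, -w (conj x)), Or.inr ?_⟩, rfl⟩
    show T (conj x) (- -w (conj x))
    rw [neg_neg]
    exact T.main _ h1 h2

theorem Psi_surj : Function.Surjective Psi := by
  rintro ⟨y, hy⟩
  rw [mem_sphere, dist_zero_right] at hy
  have hy2 : exp (I * (arg y : ℂ)) = y := by
    have := norm_mul_exp_arg_mul_I y
    rw [hy, ofReal_one, one_mul, mul_comm] at this
    exact this
  rcases le_total 0 (arg y) with h | h
  · obtain ⟨x, hx⟩ := exists_T h (arg_le_pi y)
    exact ⟨⟨(x, arg y), Or.inl hx⟩, Subtype.ext hy2⟩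
  · obtain ⟨x, hx⟩ := exists_T (α := -arg y) (by linarith) (by linarith [neg_pi_lt_arg y])
    refine ⟨⟨(conj x, arg y), Or.inr ?_⟩, Subtype.ext hy2⟩
    show T (conj (conj x)) (-arg y)
    rw [Complex.conj_conj]; exact hx

theorem upper : ghDist (closedBall (0 : ℂ) 1) (sphere (0 : ℂ) 1) ≤ 1 - s := by
  apply ghDist_le_of_corr Phi Psi Phi_surj Psi_surj (by linarith [s_lt])
  intro p q
  have h := key p q
  have e1 : dist (Phi p) (Phi q) = ‖p.1.1 - q.1.1‖ := by
    rw [Subtype.dist_eq, dist_eq_norm]; rfl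
  have e2 : dist (Psi p) (Psi q) = 2 * |Real.sin ((p.1.2 - q.1.2) / 2)| := by
    rw [Subtype.dist_eq, dist_eq_norm]
    exact norm_exp_sub_exp _ _
  rw [e1, e2]
  exact h

theorem mem_cb {z : ℂ} (hz : ‖z‖ ≤ 1) : z ∈ closedBall (0 : ℂ) 1 := by
  rw [mem_closedBall, dist_zero_right]; exact hz

open Classical in
theorem lower_gh : 1 - s ≤ ghDist (closedBall (0 : ℂ) 1) (sphere (0 : ℂ) 1) := by
  by_contra hcon
  push Not at hcon
  obtain ⟨r, hr1, hr2⟩ := exists_between hcon
  obtain ⟨f, hf⟩ := exists_map_of_ghDist_lt hr1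
  obtain ⟨g, hval⟩ : ∃ g : ℂ → ℂ, ∀ z (h : ‖z‖ ≤ 1), g z = f ⟨z, mem_cb h⟩ :=
    ⟨fun z => if h : ‖z‖ ≤ 1 then (f ⟨z, mem_cb h⟩ : ℂ) else 1, fun z h => dif_pos h⟩
  have hd := lower s s_pos s_eq g (2 * r) ?_ ?_
  · linarith
  · intro z hz
    rw [hval z hz]
    have h2 : (f ⟨z, mem_cb hz⟩ : ℂ) ∈ sphere (0 : ℂ) 1 := (f ⟨z, mem_cb hz⟩).2
    rwa [mem_sphere, dist_zero_right] at h2
  · intro z w hz hw
    rw [hval z hz, hval w hw]
    have h2 := hf ⟨z, mem_cb hz⟩ ⟨w, mem_cb hw⟩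
    have e1 : dist (⟨z, mem_cb hz⟩ : closedBall (0 : ℂ) 1) ⟨w, mem_cb hw⟩ = ‖z - w‖ := by
      rw [Subtype.dist_eq, dist_eq_norm]
    have e2 : dist (f ⟨z, mem_cb hz⟩) (f ⟨w, mem_cb hw⟩)
        = ‖(f ⟨z, mem_cb hz⟩ : ℂ) - f ⟨w, mem_cb hw⟩‖ := by
      rw [Subtype.dist_eq, dist_eq_norm]
    rwa [e1, e2] at h2

/-- The Gromov-Hausdorff distance of the closed unit disc and the unit circle of `ℂ`. -/
theorem ghDist_disc_circle : ghDist (closedBall (0 : ℂ) 1) (sphere (0 : ℂ) 1) = 1 - s :=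
  le_antisymm upper lower_gh

theorem ghDist_congr {X Y X' Y' : Type} [MetricSpace X] [CompactSpace X] [Nonempty X]
    [MetricSpace Y] [CompactSpace Y] [Nonempty Y] [MetricSpace X'] [CompactSpace X'] [Nonempty X']
    [MetricSpace Y'] [CompactSpace Y'] [Nonempty Y'] (e : X ≃ᵢ X') (e' : Y ≃ᵢ Y') :
    ghDist X Y = ghDist X' Y' := by
  unfold ghDist
  rw [toGHSpace_eq_toGHSpace_iff_isometryEquiv.2 ⟨e⟩, toGHSpace_eq_toGHSpace_iff_isometryEquiv.2 ⟨e'⟩]

/-- Euclidean plane version. -/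
theorem ghDist_plane [Nonempty (sphere (0 : EuclideanSpace ℝ (Fin 2)) 1)] :
    ghDist (closedBall (0 : EuclideanSpace ℝ (Fin 2)) 1) (sphere (0 : EuclideanSpace ℝ (Fin 2)) 1)
      = 1 - s := by
  rw [← ghDist_disc_circle]
  let L := Complex.orthonormalBasisOneI.repr
  have h1 : ∀ x : EuclideanSpace ℝ (Fin 2), ‖L.symm x‖ = ‖x‖ := fun x => L.symm.norm_map x
  have h2 : ∀ x : ℂ, ‖L x‖ = ‖x‖ := fun x => L.norm_map x
  let e : closedBall (0 : EuclideanSpace ℝ (Fin 2)) 1 ≃ᵢ closedBall (0 : ℂ) 1 :=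
    { toFun := fun x => ⟨L.symm x, by
        have := x.2; rw [mem_closedBall, dist_zero_right] at this ⊢; rw [h1]; exact this⟩
      invFun := fun x => ⟨L x, by
        have := x.2; rw [mem_closedBall, dist_zero_right] at this ⊢; rw [h2]; exact this⟩
      left_inv := fun x => Subtype.ext (L.apply_symm_apply _)
      right_inv := fun x => Subtype.ext (L.symm_apply_apply _)
      isometry_toFun := Isometry.of_dist_eq fun x y => by
        rw [Subtype.dist_eq, Subtype.dist_eq]; exact L.symm.dist_map _ _ }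
  let e' : sphere (0 : EuclideanSpace ℝ (Fin 2)) 1 ≃ᵢ sphere (0 : ℂ) 1 :=
    { toFun := fun x => ⟨L.symm x, by
        have := x.2; rw [mem_sphere, dist_zero_right] at this ⊢; rw [h1]; exact this⟩
      invFun := fun x => ⟨L x, by
        have := x.2; rw [mem_sphere, dist_zero_right] at this ⊢; rw [h2]; exact this⟩
      left_inv := fun x => Subtype.ext (L.apply_symm_apply _)
      right_inv := fun x => Subtype.ext (L.symm_apply_apply _)
      isometry_toFun := Isometry.of_dist_eq fun x y => by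
        rw [Subtype.dist_eq, Subtype.dist_eq]; exact L.symm.dist_map _ _ }
  exact ghDist_congr e e'

end H921GH
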